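import Pool.Agent.Q97.UM.Stm6

set_option autoImplicit false

/-!
Project UM2 (helper97), job CONV: mean square of `α * b`, `α` supported on prime powers, `b` on `[1, N]`.
-/

namespace Pool.Agent.Q247.UM

open Pool.Agent.Q97.UM
open ArithmeticFunction

noncomputable section

theorem sum_conv (N M : ℕ) (F G : ℕ → ℝ) (hF : ∀ n, M < n → F n = 0) (hG : ∀ n, N < n → G n = 0) :
    ∑ k ∈ Finset.Icc 1 (N * M), ∑ p ∈ k.divisorsAntidiagonal, F p.1 * G p.2 =
      (∑ p ∈ Finset.Icc 1 M, F p) * ∑ m ∈ Finset.Icc 1 N, G m := by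
  classical
  rw [Finset.sum_mul_sum, ← Finset.sum_product']
  rw [← Finset.sum_fiberwise_of_maps_to (s := Finset.Icc 1 M ×ˢ Finset.Icc 1 N)
    (t := Finset.Icc 1 (N * M)) (g := fun x => x.1 * x.2)]
  · refine Finset.sum_congr rfl fun k hk => ?_
    rw [Finset.mem_Icc] at hk
    symm
    apply Finset.sum_subset
    · intro x hx
      rw [Finset.mem_filter] at hx
      rw [Nat.mem_divisorsAntidiagonal]
      exact ⟨hx.2, by omega⟩
    · intro x hx hx2
      rw [Nat.mem_divisorsAntidiagonal] at hx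
      by_cases h1 : M < x.1
      · rw [hF _ h1, zero_mul]
      by_cases h2 : N < x.2
      · rw [hG _ h2, mul_zero]
      exfalso
      apply hx2
      rw [Finset.mem_filter, Finset.mem_product, Finset.mem_Icc, Finset.mem_Icc]
      have h3 : x.1 ≠ 0 := by
        intro h
        rw [h, zero_mul] at hx
        omega
      have h4 : x.2 ≠ 0 := by
        intro h
        rw [h, mul_zero] at hx
        omega
      exact ⟨⟨⟨by omega, by omega⟩, ⟨by omega, by omega⟩⟩, hx.1⟩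
  · intro x hx
    rw [Finset.mem_product, Finset.mem_Icc, Finset.mem_Icc] at hx
    rw [Finset.mem_Icc]
    constructor
    · exact Nat.mul_pos hx.1.1 hx.2.1
    · rw [mul_comm N M]
      exact Nat.mul_le_mul hx.1.2 hx.2.2

theorem log_eq_sum (k : ℕ) : ∑ p ∈ k.divisorsAntidiagonal, vonMangoldt p.1 = Real.log k := by
  have h := vonMangoldt_sum (n := k)
  rw [← h, Nat.sum_divisorsAntidiagonal (fun i _ => vonMangoldt i)]

theorem cs_term (b α : ℕ → ℂ) (β : ℕ → ℝ) (A : ℕ → Prop) [DecidablePred A]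
    (hβ : ∀ n, 0 ≤ β n) (hα : ∀ n, ‖α n‖ ≤ vonMangoldt n * β n) (k : ℕ) :
    ‖cv (fun n => if A n then α n else 0) b k‖ ^ 2 ≤
      Real.log k * ∑ p ∈ k.divisorsAntidiagonal, (if A p.1 then vonMangoldt p.1 * β p.1 ^ 2 else 0) * ‖b p.2‖ ^ 2 := by
  have h1 : ‖cv (fun n => if A n then α n else 0) b k‖ ≤
      ∑ p ∈ k.divisorsAntidiagonal, (if A p.1 then vonMangoldt p.1 * β p.1 else 0) * ‖b p.2‖ := by
    unfold cv
    refine (norm_sum_le _ _).trans (Finset.sum_le_sum fun p _ => ?_)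
    rw [norm_mul]
    refine mul_le_mul_of_nonneg_right ?_ (norm_nonneg _)
    beta_reduce
    by_cases h : A p.1
    · rw [if_pos h, if_pos h]
      exact hα _
    · rw [if_neg h, if_neg h, norm_zero]
  have h2 : (∑ p ∈ k.divisorsAntidiagonal, (if A p.1 then vonMangoldt p.1 * β p.1 else 0) * ‖b p.2‖) ^ 2 ≤
      (∑ p ∈ k.divisorsAntidiagonal, vonMangoldt p.1) *
        ∑ p ∈ k.divisorsAntidiagonal, (if A p.1 then vonMangoldt p.1 * β p.1 ^ 2 else 0) * ‖b p.2‖ ^ 2 := by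
    apply Finset.sum_sq_le_sum_mul_sum_of_sq_le_mul
    · intro p _
      exact vonMangoldt_nonneg
    · intro p _
      have := vonMangoldt_nonneg (n := p.1)
      positivity
    · intro p _
      refine le_of_eq ?_
      by_cases h : A p.1
      · rw [if_pos h, if_pos h]
        ring
      · rw [if_neg h, if_neg h]
        ring
  rw [log_eq_sum] at h2
  exact (pow_le_pow_left₀ (norm_nonneg _) h1 2).trans h2

theorem gen (N M : ℕ) (b α : ℕ → ℂ) (β : ℕ → ℝ) (A : ℕ → Prop) [DecidablePred A] (L : ℝ)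
    (hA : ∀ n, A n → n ≤ M) (hβ : ∀ n, 0 ≤ β n) (hα : ∀ n, ‖α n‖ ≤ vonMangoldt n * β n)
    (hb : ∀ n, N < n → b n = 0)
    (hL : ∀ p m : ℕ, A p → 1 ≤ p → 1 ≤ m → m ≤ N → Real.log ((p * m : ℕ) : ℝ) ≤ L) :
    N2 (N * M) (cv (fun n => if A n then α n else 0) b) ≤
      L * (∑ p ∈ (Finset.Icc 1 M).filter A, vonMangoldt p * β p ^ 2 / p) * N2 N b := by
  have h0 := sum_conv N M (fun n => (if A n then vonMangoldt n * β n ^ 2 else 0) / n)
    (fun m => ‖b m‖ ^ 2 / m) (by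
      intro n hn
      have : ¬ A n := fun h => by
        have := hA n h
        omega
      simp only [if_neg this, zero_div]) (by
      intro n hn
      simp only [hb n hn, norm_zero]
      simp)
  have h1 : ∑ p ∈ (Finset.Icc 1 M).filter A, vonMangoldt p * β p ^ 2 / (p : ℝ) =
      ∑ p ∈ Finset.Icc 1 M, (if A p then vonMangoldt p * β p ^ 2 else 0) / (p : ℝ) := by
    rw [Finset.sum_filter]
    refine Finset.sum_congr rfl fun p _ => ?_
    by_cases h : A p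
    · rw [if_pos h, if_pos h]
    · rw [if_neg h, if_neg h, zero_div]
  rw [h1, mul_assoc]
  unfold N2
  rw [← h0, Finset.mul_sum]
  refine Finset.sum_le_sum fun k hk => ?_
  rw [Finset.mem_Icc] at hk
  have hk0 : (0 : ℝ) < k := by exact_mod_cast (by omega : 0 < k)
  have h2 := cs_term b α β A hβ hα k
  have h3 : ∑ p ∈ k.divisorsAntidiagonal, (if A p.1 then vonMangoldt p.1 * β p.1 ^ 2 else 0) / (p.1 : ℝ) *
      (‖b p.2‖ ^ 2 / (p.2 : ℝ)) =
      (∑ p ∈ k.divisorsAntidiagonal, (if A p.1 then vonMangoldt p.1 * β p.1 ^ 2 else 0) * ‖b p.2‖ ^ 2) / k := by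
    rw [Finset.sum_div]
    refine Finset.sum_congr rfl fun p hp => ?_
    rw [Nat.mem_divisorsAntidiagonal] at hp
    rw [← hp.1]
    push_cast
    rw [div_mul_div_comm]
  rw [h3, ← mul_div_assoc]
  refine div_le_div_of_nonneg_right ?_ hk0.le
  refine h2.trans ?_
  obtain ⟨S, hS⟩ : ∃ S, S = ∑ p ∈ k.divisorsAntidiagonal,
    (if A p.1 then vonMangoldt p.1 * β p.1 ^ 2 else 0) * ‖b p.2‖ ^ 2 := ⟨_, rfl⟩
  rw [← hS]
  have hS0 : 0 ≤ S := by
    rw [hS]
    refine Finset.sum_nonneg fun p _ => ?_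
    have := vonMangoldt_nonneg (n := p.1)
    positivity
  by_cases hS1 : S = 0
  · rw [hS1, mul_zero, mul_zero]
  · refine mul_le_mul_of_nonneg_right ?_ hS0
    rw [hS] at hS1
    obtain ⟨p, hp, hne⟩ := Finset.exists_ne_zero_of_sum_ne_zero hS1
    rw [Nat.mem_divisorsAntidiagonal] at hp
    have hAp : A p.1 := by
      by_contra h
      rw [if_neg h, zero_mul] at hne
      exact hne rfl
    have hm : p.2 ≤ N := by
      by_contra h
      rw [hb _ (by omega), norm_zero] at hne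
      apply hne
      ring
    have h3 : p.1 ≠ 0 := by
      intro h
      rw [h, zero_mul] at hp
      omega
    have h4 : p.2 ≠ 0 := by
      intro h
      rw [h, mul_zero] at hp
      omega
    have := hL p.1 p.2 hAp (by omega) (by omega) hm
    rw [hp.1] at this
    exact this

theorem big_term (N : ℕ) (b α : ℕ → ℂ) (A : ℕ → Prop) [DecidablePred A] (hA : ∀ n, A n → n.Prime ∧ N < n)
    (hb : ∀ n, N < n → b n = 0) (k : ℕ) :
    ‖cv (fun n => if A n then α n else 0) b k‖ ^ 2 =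
      ∑ p ∈ k.divisorsAntidiagonal, (if A p.1 then ‖α p.1‖ ^ 2 else 0) * ‖b p.2‖ ^ 2 := by
  classical
  unfold cv
  by_cases h : ∃ p ∈ k.divisorsAntidiagonal, A p.1 ∧ b p.2 ≠ 0
  · obtain ⟨p, hp, h1, h2⟩ := h
    have hu : ∀ q ∈ k.divisorsAntidiagonal, q ≠ p → ¬ A q.1 ∨ b q.2 = 0 := by
      intro q hq hqp
      by_contra hcon
      push Not at hcon
      apply hqp
      rw [Nat.mem_divisorsAntidiagonal] at hp hq
      have e1 : p.1 ∣ q.1 * q.2 := by
        rw [hq.1, ← hp.1]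
        exact Dvd.intro _ rfl
      have hq2 : q.2 ≤ N := by
        by_contra h
        exact hcon.2 (hb _ (by omega))
      have hq20 : q.2 ≠ 0 := by
        intro h
        rw [h, mul_zero] at hq
        omega
      have e2 : p.1 = q.1 := by
        rcases ((hA _ h1).1.dvd_mul).1 e1 with h | h
        · exact (Nat.prime_dvd_prime_iff_eq (hA _ h1).1 (hA _ hcon.1).1).1 h
        · exfalso
          have h5 := Nat.le_of_dvd (by omega) h
          have h6 := (hA _ h1).2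
          omega
      have e3 : q.2 = p.2 := by
        have h7 := hq.1.trans hp.1.symm
        rw [e2] at h7
        exact Nat.eq_of_mul_eq_mul_left (hA _ hcon.1).1.pos h7
      exact Prod.ext e2.symm e3
    rw [Finset.sum_eq_single_of_mem p hp, Finset.sum_eq_single_of_mem p hp]
    · beta_reduce
      rw [if_pos h1, if_pos h1, norm_mul, mul_pow]
    · intro q hq hqp
      rcases hu q hq hqp with h | h
      · rw [if_neg h, zero_mul]
      · rw [h, norm_zero]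
        ring
    · intro q hq hqp
      beta_reduce
      rcases hu q hq hqp with h | h
      · rw [if_neg h, zero_mul]
      · rw [h, mul_zero]
  · push Not at h
    rw [Finset.sum_eq_zero, Finset.sum_eq_zero]
    · simp
    · intro p hp
      by_cases h1 : A p.1
      · rw [h p hp h1, norm_zero]
        ring
      · rw [if_neg h1, zero_mul]
    · intro p hp
      beta_reduce
      by_cases h1 : A p.1
      · rw [h p hp h1, mul_zero]
      · rw [if_neg h1, zero_mul]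

theorem big (N M : ℕ) (b α : ℕ → ℂ) (A : ℕ → Prop) [DecidablePred A] (hA : ∀ n, A n → n.Prime ∧ N < n)
    (hAM : ∀ n, A n → n ≤ M) (hb : ∀ n, N < n → b n = 0) :
    N2 (N * M) (cv (fun n => if A n then α n else 0) b) =
      (∑ p ∈ (Finset.Icc 1 M).filter A, ‖α p‖ ^ 2 / p) * N2 N b := by
  have h0 := sum_conv N M (fun n => (if A n then ‖α n‖ ^ 2 else 0) / n)
    (fun m => ‖b m‖ ^ 2 / m) (by
      intro n hn
      have : ¬ A n := fun h => by
        have := hAM n h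
        omega
      simp only [if_neg this, zero_div]) (by
      intro n hn
      simp only [hb n hn, norm_zero]
      simp)
  have h1 : ∑ p ∈ (Finset.Icc 1 M).filter A, ‖α p‖ ^ 2 / (p : ℝ) =
      ∑ p ∈ Finset.Icc 1 M, (if A p then ‖α p‖ ^ 2 else 0) / (p : ℝ) := by
    rw [Finset.sum_filter]
    refine Finset.sum_congr rfl fun p _ => ?_
    by_cases h : A p
    · rw [if_pos h, if_pos h]
    · rw [if_neg h, if_neg h, zero_div]
  rw [h1]
  unfold N2
  rw [← h0]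
  refine Finset.sum_congr rfl fun k hk => ?_
  rw [big_term N b α A hA hb k, Finset.sum_div]
  refine Finset.sum_congr rfl fun p hp => ?_
  rw [Nat.mem_divisorsAntidiagonal] at hp
  rw [← hp.1]
  push_cast
  rw [div_mul_div_comm]

theorem pp_sum : ∃ C : ℝ, 0 ≤ C ∧ ∀ S : Finset ℕ, (∀ n ∈ S, ¬ n.Prime) →
    ∑ n ∈ S, vonMangoldt n / n ≤ C := by
  have hs := vonMangoldt.summable_residueClass_non_primes_div (q := 1) (a := 0)
  have hn : ∀ n : ℕ, 0 ≤ (if n.Prime then 0 else vonMangoldt.residueClass (0 : ZMod 1) n) / (n : ℝ) := by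
    intro n
    have := vonMangoldt.residueClass_nonneg (0 : ZMod 1) n
    positivity
  refine ⟨∑' n : ℕ, (if n.Prime then 0 else vonMangoldt.residueClass (0 : ZMod 1) n) / (n : ℝ),
    tsum_nonneg hn, ?_⟩
  intro S hS
  refine le_trans (le_of_eq ?_) (hs.sum_le_tsum S fun n _ => hn n)
  refine Finset.sum_congr rfl fun n hnS => ?_
  rw [if_neg (hS n hnS)]
  congr 1
  unfold vonMangoldt.residueClass
  rw [Set.indicator_of_mem]
  exact Subsingleton.elim _ _

theorem sq_diff (x w : ℂ) (η : ℝ) (hη : 0 < η) (hη1 : η ≤ 1) :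
    |‖x + w‖ ^ 2 - ‖x‖ ^ 2| ≤ η * ‖x‖ ^ 2 + 2 / η * ‖w‖ ^ 2 := by
  have h1 : ‖x + w‖ ≤ ‖x‖ + ‖w‖ := norm_add_le _ _
  have h2 : ‖x‖ ≤ ‖x + w‖ + ‖w‖ := by
    have := norm_sub_le (x + w) w
    rwa [add_sub_cancel_right] at this
  have h3 : 2 * ‖x‖ * ‖w‖ ≤ η * ‖x‖ ^ 2 + 1 / η * ‖w‖ ^ 2 := by
    have h : 0 ≤ (η * ‖x‖ - ‖w‖) ^ 2 / η := by positivity
    have e : (η * ‖x‖ - ‖w‖) ^ 2 / η = η * ‖x‖ ^ 2 + 1 / η * ‖w‖ ^ 2 - 2 * ‖x‖ * ‖w‖ := by
      field_simp
      ring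
    rw [e] at h
    linarith
  have h4 : ‖w‖ ^ 2 ≤ 1 / η * ‖w‖ ^ 2 := by
    have : 1 ≤ 1 / η := by
      rw [le_div_iff₀ hη]
      linarith
    nlinarith [sq_nonneg ‖w‖]
  have hx := norm_nonneg x
  have hw := norm_nonneg w
  have hxw := norm_nonneg (x + w)
  have e2 : 2 / η * ‖w‖ ^ 2 = 1 / η * ‖w‖ ^ 2 + 1 / η * ‖w‖ ^ 2 := by ring
  rw [e2, abs_le]
  constructor
  · by_cases h5 : ‖w‖ ≤ ‖x‖
    · have : (‖x‖ - ‖w‖) ^ 2 ≤ ‖x + w‖ ^ 2 := pow_le_pow_left₀ (by linarith) (by linarith) 2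
      nlinarith
    · push Not at h5
      have : ‖x‖ ^ 2 ≤ ‖w‖ ^ 2 := pow_le_pow_left₀ hx h5.le 2
      have h6 : 0 ≤ ‖x + w‖ ^ 2 := by positivity
      have h7 : 0 ≤ η * ‖x‖ ^ 2 := by positivity
      have h8 : 0 ≤ 1 / η * ‖w‖ ^ 2 := by positivity
      linarith
  · have : ‖x + w‖ ^ 2 ≤ (‖x‖ + ‖w‖) ^ 2 := pow_le_pow_left₀ hxw h1 2
    nlinarith

theorem three (x y z : ℂ) (η : ℝ) (hη : 0 < η) (hη1 : η ≤ 1) :
    |‖x + y + z‖ ^ 2 - ‖x‖ ^ 2| ≤ η * ‖x‖ ^ 2 + 4 / η * (‖y‖ ^ 2 + ‖z‖ ^ 2) := by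
  have h1 := sq_diff x (y + z) η hη hη1
  rw [← add_assoc] at h1
  refine h1.trans ?_
  have h2 : ‖y + z‖ ^ 2 ≤ 2 * (‖y‖ ^ 2 + ‖z‖ ^ 2) := by
    have h3 : ‖y + z‖ ^ 2 ≤ (‖y‖ + ‖z‖) ^ 2 := pow_le_pow_left₀ (norm_nonneg _) (norm_add_le _ _) 2
    nlinarith [sq_nonneg (‖y‖ - ‖z‖)]
  have h4 : 2 / η * ‖y + z‖ ^ 2 ≤ 2 / η * (2 * (‖y‖ ^ 2 + ‖z‖ ^ 2)) :=
    mul_le_mul_of_nonneg_left h2 (by positivity)
  have e : 2 / η * (2 * (‖y‖ ^ 2 + ‖z‖ ^ 2)) = 4 / η * (‖y‖ ^ 2 + ‖z‖ ^ 2) := by ring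
  linarith

theorem t_CONV : S_CONV := by
  obtain ⟨C₁, hC₁, hpp⟩ := pp_sum
  refine ⟨8 + 4 * C₁, by linarith, ?_⟩
  intro N M b α β β₁ η hN hM hη hη1 hβ hα hαM hb
  obtain ⟨x, hx⟩ : ∃ x : ℕ → ℂ, x = cv (fun n => if (n.Prime ∧ N < n ∧ n ≤ M) then α n else 0) b := ⟨_, rfl⟩
  obtain ⟨y, hy⟩ : ∃ y : ℕ → ℂ, y = cv (fun n => if (n.Prime ∧ n ≤ N ∧ n ≤ M) then α n else 0) b := ⟨_, rfl⟩
  obtain ⟨z, hz⟩ : ∃ z : ℕ → ℂ, z = cv (fun n => if (¬ n.Prime ∧ n ≤ M) then α n else 0) b := ⟨_, rfl⟩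
  have hsum : ∀ k, cv α b k = x k + y k + z k := by
    intro k
    rw [hx, hy, hz]
    unfold cv
    rw [← Finset.sum_add_distrib, ← Finset.sum_add_distrib]
    refine Finset.sum_congr rfl fun p _ => ?_
    rw [← add_mul, ← add_mul]
    congr 1
    beta_reduce
    by_cases h1 : M < p.1
    · rw [hαM _ h1, ite_self, ite_self, ite_self, add_zero, add_zero]
    · by_cases h2 : p.1.Prime
      · by_cases h3 : N < p.1
        · have h4 : ¬ p.1 ≤ N := by omega
          have h5 : p.1 ≤ M := by omega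
          simp [h2, h3, h4, h5]
        · have h4 : p.1 ≤ N := by omega
          have h5 : p.1 ≤ M := by omega
          simp [h2, h3, h4, h5]
      · have h5 : p.1 ≤ M := by omega
        simp [h2, h5]
  -- the three mean squares
  have hlN : 0 ≤ Real.log (2 * N) := Real.log_nonneg (by
    have : (1 : ℝ) ≤ N := by exact_mod_cast hN
    linarith)
  have hN1 : (1 : ℝ) ≤ N := by exact_mod_cast hN
  have hM1 : (1 : ℝ) ≤ M := by exact_mod_cast hM
  have hlM : 0 ≤ Real.log (2 * N * M) := Real.log_nonneg (by nlinarith)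
  have hN2 : 0 ≤ N2 N b := by
    unfold N2
    exact Finset.sum_nonneg fun n _ => by positivity
  have ex : N2 (N * M) x = (∑ p ∈ bigP N M, ‖α p‖ ^ 2 / p) * N2 N b := by
    rw [hx, big N M b α (fun n => n.Prime ∧ N < n ∧ n ≤ M) (fun n h => ⟨h.1, h.2.1⟩) (fun n h => h.2.2) hb]
    congr 1
    refine Finset.sum_congr ?_ fun _ _ => rfl
    unfold bigP
    ext n
    simp only [Finset.mem_filter, Finset.mem_Icc]
    constructor
    · rintro ⟨h1, h2⟩
      exact ⟨h1, h2.1, h2.2.1⟩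
    · rintro ⟨h1, h2⟩
      exact ⟨h1, h2.1, h2.2, h1.2⟩
  have ey : N2 (N * M) y ≤ (2 * Real.log (2 * N)) * (∑ p ∈ smallP N M, Real.log p * β p ^ 2 / p) * N2 N b := by
    have h := gen N M b α β (fun n => n.Prime ∧ n ≤ N ∧ n ≤ M) (2 * Real.log (2 * N)) (fun n h => h.2.2)
      (fun n => (hβ n).1) hα hb (by
        intro p m hp hp1 hm hmN
        have hp1' : (1 : ℝ) ≤ p := by exact_mod_cast hp1
        have hm' : (1 : ℝ) ≤ m := by exact_mod_cast hm
        have hpN : (p : ℝ) ≤ N := by exact_mod_cast hp.2.1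
        have hmN' : (m : ℝ) ≤ N := by exact_mod_cast hmN
        push_cast
        rw [Real.log_mul (by linarith) (by linarith)]
        have e1 : Real.log p ≤ Real.log (2 * N) := Real.log_le_log (by linarith) (by linarith)
        have e2 : Real.log m ≤ Real.log (2 * N) := Real.log_le_log (by linarith) (by linarith)
        linarith)
    rw [← hy] at h
    refine h.trans (le_of_eq ?_)
    congr 2
    have e : (Finset.Icc 1 M).filter (fun n => n.Prime ∧ n ≤ N ∧ n ≤ M) = smallP N M := by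
      unfold smallP
      ext n
      simp only [Finset.mem_filter, Finset.mem_Icc]
      constructor
      · rintro ⟨h1, h2⟩
        exact ⟨h1, h2.1, h2.2.1⟩
      · rintro ⟨h1, h2⟩
        exact ⟨h1, h2.1, h2.2, h1.2⟩
    rw [e]
    refine Finset.sum_congr rfl fun p hp => ?_
    rw [vonMangoldt_apply_prime (Finset.mem_filter.1 hp).2.1]
  have ez : N2 (N * M) z ≤ Real.log (2 * N * M) * (C₁ * β₁ ^ 2) * N2 N b := by
    have h := gen N M b α β (fun n => ¬ n.Prime ∧ n ≤ M) (Real.log (2 * N * M)) (fun n h => h.2)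
      (fun n => (hβ n).1) hα hb (by
        intro p m hp hp1 hm hmN
        have hp1' : (1 : ℝ) ≤ p := by exact_mod_cast hp1
        have hm' : (1 : ℝ) ≤ m := by exact_mod_cast hm
        have hpN : (p : ℝ) ≤ M := by exact_mod_cast hp.2
        have hmN' : (m : ℝ) ≤ N := by exact_mod_cast hmN
        push_cast
        refine Real.log_le_log (by positivity) ?_
        nlinarith [mul_le_mul hpN hmN' (by linarith) (by linarith)])
    rw [← hz] at h
    refine h.trans ?_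
    refine mul_le_mul_of_nonneg_right ?_ hN2
    refine mul_le_mul_of_nonneg_left ?_ hlM
    have h5 := hpp ((Finset.Icc 1 M).filter (fun n => ¬ n.Prime ∧ n ≤ M)) (fun n hn => (Finset.mem_filter.1 hn).2.1)
    calc ∑ p ∈ (Finset.Icc 1 M).filter (fun n => ¬ n.Prime ∧ n ≤ M), vonMangoldt p * β p ^ 2 / (p : ℝ)
        ≤ ∑ p ∈ (Finset.Icc 1 M).filter (fun n => ¬ n.Prime ∧ n ≤ M), vonMangoldt p / (p : ℝ) * β₁ ^ 2 := by
          refine Finset.sum_le_sum fun p _ => ?_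
          have h6 : β p ^ 2 ≤ β₁ ^ 2 := pow_le_pow_left₀ (hβ p).1 (hβ p).2 2
          have h7 : 0 ≤ vonMangoldt p / (p : ℝ) := by
            have := vonMangoldt_nonneg (n := p)
            positivity
          calc vonMangoldt p * β p ^ 2 / (p : ℝ) = vonMangoldt p / (p : ℝ) * β p ^ 2 := by ring
            _ ≤ _ := mul_le_mul_of_nonneg_left h6 h7
      _ = (∑ p ∈ (Finset.Icc 1 M).filter (fun n => ¬ n.Prime ∧ n ≤ M), vonMangoldt p / (p : ℝ)) * β₁ ^ 2 := by
          rw [Finset.sum_mul]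
      _ ≤ C₁ * β₁ ^ 2 := mul_le_mul_of_nonneg_right h5 (by positivity)
  -- assembly
  have hmain : |N2 (N * M) (cv α b) - N2 (N * M) x| ≤
      η * N2 (N * M) x + 4 / η * (N2 (N * M) y + N2 (N * M) z) := by
    unfold N2
    rw [← Finset.sum_sub_distrib, Finset.mul_sum, ← Finset.sum_add_distrib, Finset.mul_sum,
      ← Finset.sum_add_distrib]
    refine (Finset.abs_sum_le_sum_abs _ _).trans (Finset.sum_le_sum fun k hk => ?_)
    rw [Finset.mem_Icc] at hk
    have hk0 : (0 : ℝ) < k := by exact_mod_cast (by omega : 0 < k)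
    rw [hsum k, ← sub_div, abs_div, abs_of_pos hk0]
    have h := three (x k) (y k) (z k) η hη hη1
    calc |‖x k + y k + z k‖ ^ 2 - ‖x k‖ ^ 2| / (k : ℝ)
        ≤ (η * ‖x k‖ ^ 2 + 4 / η * (‖y k‖ ^ 2 + ‖z k‖ ^ 2)) / k := div_le_div_of_nonneg_right h hk0.le
      _ = _ := by ring
  rw [ex] at hmain
  refine hmain.trans ?_
  obtain ⟨X, hX⟩ : ∃ X, X = ∑ p ∈ bigP N M, ‖α p‖ ^ 2 / (p : ℝ) := ⟨_, rfl⟩
  obtain ⟨Y, hY⟩ : ∃ Y, Y = ∑ p ∈ smallP N M, Real.log p * β p ^ 2 / (p : ℝ) := ⟨_, rfl⟩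
  have hY0 : 0 ≤ Y := by
    rw [hY]
    refine Finset.sum_nonneg fun p _ => ?_
    have := Real.log_natCast_nonneg p
    positivity
  rw [← hX, ← hY]
  rw [← hY] at ey
  obtain ⟨n2, hn2⟩ : ∃ n2, n2 = N2 N b := ⟨_, rfl⟩
  rw [← hn2] at ey ez hN2 ⊢
  obtain ⟨l1, hl1⟩ : ∃ l1, l1 = Real.log (2 * N) := ⟨_, rfl⟩
  obtain ⟨l2, hl2⟩ : ∃ l2, l2 = Real.log (2 * N * M) := ⟨_, rfl⟩
  rw [← hl1] at ey hlN ⊢
  rw [← hl2] at ez hlM ⊢
  have h4 : 4 / η * (N2 (N * M) y + N2 (N * M) z) ≤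
      4 / η * (2 * l1 * Y * n2 + l2 * (C₁ * β₁ ^ 2) * n2) :=
    mul_le_mul_of_nonneg_left (by linarith) (by positivity)
  have h5 : 4 / η * (2 * l1 * Y * n2 + l2 * (C₁ * β₁ ^ 2) * n2) ≤
      (8 + 4 * C₁) / η * (l1 * Y + l2 * β₁ ^ 2) * n2 := by
    have e : (8 + 4 * C₁) / η * (l1 * Y + l2 * β₁ ^ 2) * n2 -
        4 / η * (2 * l1 * Y * n2 + l2 * (C₁ * β₁ ^ 2) * n2) =
        (1 / η) * ((4 * C₁) * (l1 * Y) + 8 * (l2 * β₁ ^ 2)) * n2 := by ring
    have : 0 ≤ (1 / η) * ((4 * C₁) * (l1 * Y) + 8 * (l2 * β₁ ^ 2)) * n2 := by positivity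
    linarith
  have e6 : (η * X + (8 + 4 * C₁) / η * (l1 * Y + l2 * β₁ ^ 2)) * n2 =
      η * (X * n2) + (8 + 4 * C₁) / η * (l1 * Y + l2 * β₁ ^ 2) * n2 := by ring
  rw [e6]
  linarith

end

end Pool.Agent.Q247.UM
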