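import Mathlib

/-!
Project UM2 of helper97, job QLF: Gaussian smoothing of a Lipschitz function with compact support (general form).
-/

set_option autoImplicit false

namespace Pool.Agent.Q247.UM

open Filter Topology MeasureTheory

noncomputable section

/-- Gaussian smoothing of `q (x/L)` -/
def QG (q : ℝ → ℝ) (L x : ℝ) : ℝ :=
  L / Real.sqrt (2 * Real.pi) * ∫ v : ℝ, q v * Real.exp (-(x - v * L) ^ 2 / 2)

theorem s2pi : 0 < Real.sqrt (2 * Real.pi) := Real.sqrt_pos.2 (by positivity)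

theorem gint : Integrable fun y : ℝ => Real.exp (-y ^ 2 / 2) := by
  have h := integrable_exp_neg_mul_sq (by norm_num : (0 : ℝ) < 1 / 2)
  refine h.congr (Eventually.of_forall fun y => ?_)
  simp only
  congr 1
  ring

theorem gval : ∫ y : ℝ, Real.exp (-y ^ 2 / 2) = Real.sqrt (2 * Real.pi) := by
  have h := integral_gaussian (1 / 2)
  have e : (fun y : ℝ => Real.exp (-y ^ 2 / 2)) = fun y : ℝ => Real.exp (-(1 / 2) * y ^ 2) := by
    funext y
    congr 1
    ring
  rw [e, h]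
  congr 1
  ring

theorem g1val : (∫ y : ℝ, |y| * Real.exp (-y ^ 2 / 2)) ≤ 2 * Real.sqrt (2 * Real.pi) := by
  have h := integral_gaussian (1 / 4)
  have hi := integrable_exp_neg_mul_sq (by norm_num : (0 : ℝ) < 1 / 4)
  have h1 : ∀ y : ℝ, |y| * Real.exp (-y ^ 2 / 2) ≤ Real.exp (-(1 / 4) * y ^ 2) := by
    intro y
    have h2 : |y| ≤ Real.exp (y ^ 2 / 4) := by
      have h3 := Real.add_one_le_exp (y ^ 2 / 4)
      have h4 : 0 ≤ (|y| / 2 - 1) ^ 2 := sq_nonneg _
      have h5 : |y| ^ 2 = y ^ 2 := sq_abs y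
      nlinarith
    have h3 : Real.exp (-(1 / 4) * y ^ 2) = Real.exp (y ^ 2 / 4) * Real.exp (-y ^ 2 / 2) := by
      rw [← Real.exp_add]
      congr 1
      ring
    rw [h3]
    exact mul_le_mul_of_nonneg_right h2 (Real.exp_pos _).le
  have h2 : ∫ y : ℝ, |y| * Real.exp (-y ^ 2 / 2) ≤ ∫ y : ℝ, Real.exp (-(1 / 4) * y ^ 2) := by
    refine integral_mono_of_nonneg (Eventually.of_forall fun y => by positivity) hi
      (Eventually.of_forall h1)
  rw [h] at h2
  refine h2.trans ?_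
  have h3 : 2 * Real.sqrt (2 * Real.pi) = Real.sqrt (4 * (2 * Real.pi)) := by
    rw [Real.sqrt_mul (by norm_num : (0 : ℝ) ≤ 4)]
    congr 1
    rw [show (4 : ℝ) = 2 ^ 2 by norm_num, Real.sqrt_sq (by norm_num)]
  rw [h3]
  refine Real.sqrt_le_sqrt ?_
  have := Real.pi_pos
  linarith

theorem g1int : Integrable fun y : ℝ => |y| * Real.exp (-y ^ 2 / 2) := by
  have hi := integrable_exp_neg_mul_sq (by norm_num : (0 : ℝ) < 1 / 4)
  refine hi.mono' (by fun_prop) (Eventually.of_forall fun y => ?_)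
  rw [Real.norm_eq_abs, abs_of_nonneg (by positivity)]
  have h2 : |y| ≤ Real.exp (y ^ 2 / 4) := by
    have h3 := Real.add_one_le_exp (y ^ 2 / 4)
    have h4 : 0 ≤ (|y| / 2 - 1) ^ 2 := sq_nonneg _
    have h5 : |y| ^ 2 = y ^ 2 := sq_abs y
    nlinarith
  have h3 : Real.exp (-(1 / 4) * y ^ 2) = Real.exp (y ^ 2 / 4) * Real.exp (-y ^ 2 / 2) := by
    rw [← Real.exp_add]
    congr 1
    ring
  rw [h3]
  exact mul_le_mul_of_nonneg_right h2 (Real.exp_pos _).le

theorem QG_eq (q : ℝ → ℝ) {L : ℝ} (hL : 0 < L) (x : ℝ) :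
    QG q L x = 1 / Real.sqrt (2 * Real.pi) * ∫ y : ℝ, q ((x - y) / L) * Real.exp (-y ^ 2 / 2) := by
  have h1 : ∫ y : ℝ, q ((x - y) / L) * Real.exp (-y ^ 2 / 2) =
      L * ∫ v : ℝ, q v * Real.exp (-(x - v * L) ^ 2 / 2) := by
    have h2 := integral_sub_left_eq_self
      (fun y : ℝ => q (y / L) * Real.exp (-(x - y / L * L) ^ 2 / 2)) volume x
    have h3 := Measure.integral_comp_div (fun v : ℝ => q v * Real.exp (-(x - v * L) ^ 2 / 2)) L
    rw [smul_eq_mul, abs_of_pos hL] at h3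
    rw [← h3, ← h2]
    refine integral_congr_ae (Eventually.of_forall fun y => ?_)
    simp only
    rw [div_mul_cancel₀ _ hL.ne']
    congr 3
    ring
  rw [h1]
  unfold QG
  ring

section

variable {q : ℝ → ℝ} {D0 δ : ℝ}

theorem q_D0 (hq : ∀ x y : ℝ, |q x - q y| ≤ D0 * |x - y|) : 0 ≤ D0 := by
  have h := hq 1 0
  have h2 := abs_nonneg (q 1 - q 0)
  norm_num at h
  linarith

theorem q_bd (hδ : 0 < δ) (hq : ∀ x y : ℝ, |q x - q y| ≤ D0 * |x - y|)
    (hs : ∀ v : ℝ, 2 * δ ≤ |v| → q v = 0) (v : ℝ) : |q v| ≤ 2 * δ * D0 := by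
  have h0 := q_D0 hq
  by_cases hv : 2 * δ ≤ |v|
  · rw [hs v hv, abs_zero]
    positivity
  · push Not at hv
    rcases le_total 0 v with h | h
    · have h1 := hq v (2 * δ)
      rw [hs (2 * δ) (by rw [abs_of_pos (by positivity)]), sub_zero] at h1
      rw [abs_of_nonneg h] at hv
      rw [abs_of_nonpos (by linarith : v - 2 * δ ≤ 0)] at h1
      nlinarith
    · have h1 := hq v (-(2 * δ))
      rw [hs (-(2 * δ)) (by rw [abs_neg, abs_of_pos (by positivity)]), sub_zero] at h1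
      rw [abs_of_nonpos h] at hv
      rw [abs_of_nonneg (by linarith : 0 ≤ v - -(2 * δ))] at h1
      nlinarith

theorem q_cont (hq : ∀ x y : ℝ, |q x - q y| ≤ D0 * |x - y|) : Continuous q := by
  have h0 := q_D0 hq
  refine (LipschitzWith.of_dist_le_mul (K := ⟨D0, h0⟩) fun x y => ?_).continuous
  rw [Real.dist_eq, Real.dist_eq]
  exact hq x y

theorem q_int {B : ℝ} (hc : Continuous q) (hB : ∀ v, |q v| ≤ B) (L x : ℝ) :
    Integrable fun y : ℝ => q ((x - y) / L) * Real.exp (-y ^ 2 / 2) := by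
  refine (gint.const_mul B).mono' ?_ (Eventually.of_forall fun y => ?_)
  · exact ((hc.comp (by fun_prop)).mul (by fun_prop)).aestronglyMeasurable
  · rw [norm_mul, Real.norm_eq_abs, Real.norm_eq_abs, abs_of_pos (Real.exp_pos _)]
    exact mul_le_mul_of_nonneg_right (hB _) (Real.exp_pos _).le

theorem QG_bd {B : ℝ} (hB : ∀ v, |q v| ≤ B) {L : ℝ} (hL : 0 < L) (x : ℝ) : |QG q L x| ≤ B := by
  have hs := s2pi
  rw [QG_eq q hL, abs_mul, abs_of_pos (by positivity : 0 < 1 / Real.sqrt (2 * Real.pi))]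
  have h1 : |∫ y : ℝ, q ((x - y) / L) * Real.exp (-y ^ 2 / 2)| ≤ ∫ y : ℝ, B * Real.exp (-y ^ 2 / 2) := by
    rw [← Real.norm_eq_abs]
    refine norm_integral_le_of_norm_le (gint.const_mul B) (Eventually.of_forall fun y => ?_)
    rw [norm_mul, Real.norm_eq_abs, Real.norm_eq_abs, abs_of_pos (Real.exp_pos _)]
    exact mul_le_mul_of_nonneg_right (hB _) (Real.exp_pos _).le
  rw [integral_const_mul, gval] at h1
  calc 1 / Real.sqrt (2 * Real.pi) * |∫ y : ℝ, q ((x - y) / L) * Real.exp (-y ^ 2 / 2)| ≤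
      1 / Real.sqrt (2 * Real.pi) * (B * Real.sqrt (2 * Real.pi)) :=
        mul_le_mul_of_nonneg_left h1 (by positivity)
    _ = B := by field_simp

theorem QG_lip {B : ℝ} (hc : Continuous q) (hB : ∀ v, |q v| ≤ B)
    (hq : ∀ x y : ℝ, |q x - q y| ≤ D0 * |x - y|) {L : ℝ} (hL : 0 < L) (x x' : ℝ) :
    |QG q L x - QG q L x'| ≤ D0 / L * |x - x'| := by
  have hs := s2pi
  rw [QG_eq q hL, QG_eq q hL, ← mul_sub, ← integral_sub (q_int hc hB L x) (q_int hc hB L x'), abs_mul,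
    abs_of_pos (by positivity : 0 < 1 / Real.sqrt (2 * Real.pi))]
  have h1 : |∫ y : ℝ, (q ((x - y) / L) * Real.exp (-y ^ 2 / 2) -
      q ((x' - y) / L) * Real.exp (-y ^ 2 / 2))| ≤
      ∫ y : ℝ, (D0 / L * |x - x'|) * Real.exp (-y ^ 2 / 2) := by
    rw [← Real.norm_eq_abs]
    refine norm_integral_le_of_norm_le (gint.const_mul _) (Eventually.of_forall fun y => ?_)
    rw [← sub_mul, norm_mul, Real.norm_eq_abs, Real.norm_eq_abs, abs_of_pos (Real.exp_pos _)]
    refine mul_le_mul_of_nonneg_right ((hq _ _).trans (le_of_eq ?_)) (Real.exp_pos _).le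
    have e : (x - y) / L - (x' - y) / L = (x - x') / L := by ring
    rw [e, abs_div, abs_of_pos hL]
    ring
  rw [integral_const_mul, gval] at h1
  calc _ ≤ 1 / Real.sqrt (2 * Real.pi) * (D0 / L * |x - x'| * Real.sqrt (2 * Real.pi)) :=
        mul_le_mul_of_nonneg_left h1 (by positivity)
    _ = D0 / L * |x - x'| := by field_simp

theorem QG_close {B : ℝ} (hc : Continuous q) (hB : ∀ v, |q v| ≤ B)
    (hq : ∀ x y : ℝ, |q x - q y| ≤ D0 * |x - y|) {L : ℝ} (hL : 0 < L) (x : ℝ) :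
    |QG q L x - q (x / L)| ≤ 2 * D0 / L := by
  have hs := s2pi
  have h0 := q_D0 hq
  have e : q (x / L) = 1 / Real.sqrt (2 * Real.pi) * ∫ y : ℝ, q (x / L) * Real.exp (-y ^ 2 / 2) := by
    rw [integral_const_mul, gval]
    field_simp
  rw [QG_eq q hL, e, ← mul_sub, ← integral_sub (q_int hc hB L x) (gint.const_mul _), abs_mul,
    abs_of_pos (by positivity : 0 < 1 / Real.sqrt (2 * Real.pi))]
  have h1 : |∫ y : ℝ, (q ((x - y) / L) * Real.exp (-y ^ 2 / 2) -
      q (x / L) * Real.exp (-y ^ 2 / 2))| ≤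
      ∫ y : ℝ, (D0 / L) * (|y| * Real.exp (-y ^ 2 / 2)) := by
    rw [← Real.norm_eq_abs]
    refine norm_integral_le_of_norm_le (g1int.const_mul _) (Eventually.of_forall fun y => ?_)
    rw [← sub_mul, norm_mul, Real.norm_eq_abs, Real.norm_eq_abs, abs_of_pos (Real.exp_pos _),
      ← mul_assoc]
    refine mul_le_mul_of_nonneg_right ((hq _ _).trans (le_of_eq ?_)) (Real.exp_pos _).le
    have e : (x - y) / L - x / L = -(y / L) := by ring
    rw [e, abs_neg, abs_div, abs_of_pos hL]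
    ring
  rw [integral_const_mul] at h1
  have h2 := mul_le_mul_of_nonneg_left g1val (by positivity : 0 ≤ D0 / L)
  calc _ ≤ 1 / Real.sqrt (2 * Real.pi) * (D0 / L * (2 * Real.sqrt (2 * Real.pi))) :=
        mul_le_mul_of_nonneg_left (h1.trans h2) (by positivity)
    _ = 2 * D0 / L := by field_simp

theorem QG_even (he : ∀ v : ℝ, q (-v) = q v) (L x : ℝ) : QG q L (-x) = QG q L x := by
  unfold QG
  congr 1
  rw [← integral_neg_eq_self]
  refine integral_congr_ae (Eventually.of_forall fun v => ?_)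
  simp only
  rw [he]
  congr 3
  ring

theorem QG_tail0 (hδ : 0 < δ) {B : ℝ} (hB : ∀ v, |q v| ≤ B)
    (hs : ∀ v : ℝ, 2 * δ ≤ |v| → q v = 0) {L : ℝ} (hL : 0 < L) {x : ℝ} (hx : 2 * δ * L ≤ x) :
    |QG q L x| ≤ B * Real.exp (-(x - 2 * δ * L) ^ 2 / 2) := by
  have hs2 := s2pi
  have hB0 : 0 ≤ B := (abs_nonneg _).trans (hB 0)
  have hI : Integrable fun v : ℝ => Real.exp (-((2 * δ - v) * L) ^ 2 / 2) := by
    have h1 := (gint.comp_mul_right' hL.ne').comp_sub_left (2 * δ)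
    exact h1
  have hv : ∫ v : ℝ, Real.exp (-((2 * δ - v) * L) ^ 2 / 2) = Real.sqrt (2 * Real.pi) / L := by
    have h1 := integral_sub_left_eq_self (fun v : ℝ => Real.exp (-(v * L) ^ 2 / 2)) volume (2 * δ)
    rw [h1]
    have h2 := Measure.integral_comp_mul_right (fun v : ℝ => Real.exp (-v ^ 2 / 2)) L
    rw [h2, gval, smul_eq_mul, abs_of_pos (by positivity : 0 < L⁻¹)]
    ring
  unfold QG
  rw [abs_mul, abs_of_pos (by positivity : 0 < L / Real.sqrt (2 * Real.pi))]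
  have h1 : |∫ v : ℝ, q v * Real.exp (-(x - v * L) ^ 2 / 2)| ≤
      ∫ v : ℝ, (B * Real.exp (-(x - 2 * δ * L) ^ 2 / 2)) * Real.exp (-((2 * δ - v) * L) ^ 2 / 2) := by
    rw [← Real.norm_eq_abs]
    refine norm_integral_le_of_norm_le (hI.const_mul _) (Eventually.of_forall fun v => ?_)
    rw [norm_mul, Real.norm_eq_abs, Real.norm_eq_abs, abs_of_pos (Real.exp_pos _)]
    by_cases hvv : 2 * δ ≤ |v|
    · rw [hs v hvv, abs_zero, zero_mul]
      positivity
    · push Not at hvv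
      have h2 : v < 2 * δ := lt_of_le_of_lt (le_abs_self v) hvv
      rw [mul_assoc, ← Real.exp_add]
      refine mul_le_mul (hB v) (Real.exp_le_exp.2 ?_) (Real.exp_pos _).le hB0
      have h3 : x - v * L = (x - 2 * δ * L) + (2 * δ - v) * L := by ring
      rw [h3]
      have h4 : 0 ≤ (x - 2 * δ * L) * ((2 * δ - v) * L) :=
        mul_nonneg (by linarith) (mul_nonneg (by linarith) hL.le)
      nlinarith
  rw [integral_const_mul, hv] at h1
  calc _ ≤ L / Real.sqrt (2 * Real.pi) *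
      (B * Real.exp (-(x - 2 * δ * L) ^ 2 / 2) * (Real.sqrt (2 * Real.pi) / L)) :=
        mul_le_mul_of_nonneg_left h1 (by positivity)
    _ = _ := by field_simp

theorem QG_tail (hδ : 0 < δ) {B : ℝ} (hB : ∀ v, |q v| ≤ B) (he : ∀ v : ℝ, q (-v) = q v)
    (hs : ∀ v : ℝ, 2 * δ ≤ |v| → q v = 0) {L : ℝ} (hL : 0 < L) {x : ℝ} (hx : 2 * δ * L ≤ |x|) :
    |QG q L x| ≤ B * Real.exp (-(|x| - 2 * δ * L) ^ 2 / 2) := by
  rcases le_total 0 x with h | h
  · rw [abs_of_nonneg h] at hx ⊢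
    exact QG_tail0 hδ hB hs hL hx
  · rw [abs_of_nonpos h] at hx ⊢
    rw [← QG_even he L x]
    exact QG_tail0 hδ hB hs hL hx

/-- all the facts -/
theorem qlf (hδ : 0 < δ) (hq : ∀ x y : ℝ, |q x - q y| ≤ D0 * |x - y|) (he : ∀ v : ℝ, q (-v) = q v)
    (hs : ∀ v : ℝ, 2 * δ ≤ |v| → q v = 0) :
    ∃ D : ℝ, 1 ≤ D ∧ ∀ L : ℝ, 1 ≤ L → Continuous (QG q L) ∧ (∀ x : ℝ, QG q L (-x) = QG q L x) ∧
    (∀ x : ℝ, |QG q L x| ≤ D) ∧
    (∀ x y : ℝ, |QG q L x - QG q L y| ≤ D / L * |x - y|) ∧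
    (∀ x : ℝ, 2 * δ * L ≤ |x| → |QG q L x| ≤ D * Real.exp (-(|x| - 2 * δ * L) ^ 2 / 2)) ∧
    Integrable (fun x => QG q L x ^ 2) ∧ |(∫ x : ℝ, QG q L x ^ 2) - L * ∫ v : ℝ, q v ^ 2| ≤ D ∧
    |QG q L 0 - q 0| ≤ D / L := by
  have h0 := q_D0 hq
  have hc := q_cont hq
  obtain ⟨B, hBd⟩ : ∃ B, B = 2 * δ * D0 := ⟨_, rfl⟩
  have hB : ∀ v, |q v| ≤ B := by rw [hBd]; exact q_bd hδ hq hs
  have hB0 : 0 ≤ B := (abs_nonneg _).trans (hB 0)
  have hpp : 0 ≤ 16 * δ * (B * D0) := by positivity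
  have hD1 : 1 ≤ 1 + B + 2 * D0 + 16 * δ * (B * D0) + 4 * B ^ 2 := by
    have := sq_nonneg B
    linarith
  refine ⟨1 + B + 2 * D0 + 16 * δ * (B * D0) + 4 * B ^ 2, hD1, fun L hL1 => ?_⟩
  have hL : 0 < L := by linarith
  obtain ⟨D, hD⟩ : ∃ D, D = 1 + B + 2 * D0 + 16 * δ * (B * D0) + 4 * B ^ 2 := ⟨_, rfl⟩
  rw [← hD]
  have hp : 0 ≤ 16 * δ * (B * D0) := by positivity
  have hDB : B ≤ D := by rw [hD]; nlinarith
  have hDD : D0 ≤ D := by rw [hD]; nlinarith
  have hD2 : 2 * D0 ≤ D := by rw [hD]; nlinarith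
  have hlip : ∀ x y : ℝ, |QG q L x - QG q L y| ≤ D / L * |x - y| := fun x y =>
    (QG_lip hc hB hq hL x y).trans (mul_le_mul_of_nonneg_right
      (div_le_div_of_nonneg_right hDD hL.le) (abs_nonneg _))
  have hcont : Continuous (QG q L) := q_cont hlip
  have hQc : ∀ x, |QG q L x| ≤ B := fun x => QG_bd hB hL x
  obtain ⟨c, hcd⟩ : ∃ c, c = 2 * δ * L := ⟨_, rfl⟩
  have hc0 : 0 < c := by rw [hcd]; positivity
  have htail : ∀ x : ℝ, c ≤ |x| → |QG q L x| ≤ B * Real.exp (-(|x| - c) ^ 2 / 2) := by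
    intro x hx
    rw [hcd] at hx ⊢
    exact QG_tail hδ hB he hs hL hx
  have hg : ∀ s : ℝ, Integrable fun x : ℝ => Real.exp (-(x - s) ^ 2) := by
    intro s
    have h1 := (integrable_exp_neg_mul_sq (by norm_num : (0 : ℝ) < 1)).comp_sub_right s
    refine h1.congr (Eventually.of_forall fun y => ?_)
    simp only
    congr 1
    ring
  have hgv : ∀ s : ℝ, ∫ x : ℝ, Real.exp (-(x - s) ^ 2) = Real.sqrt Real.pi := by
    intro s
    rw [integral_sub_right_eq_self (fun x : ℝ => Real.exp (-x ^ 2)) s]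
    have h1 := integral_gaussian 1
    simpa using h1
  have hsq : ∀ x, c ≤ |x| → QG q L x ^ 2 ≤ B ^ 2 * (Real.exp (-(x - c) ^ 2) + Real.exp (-(x - -c) ^ 2)) := by
    intro x hx
    have h1 := pow_le_pow_left₀ (abs_nonneg _) (htail x hx) 2
    rw [sq_abs, mul_pow, ← Real.exp_nat_mul] at h1
    refine h1.trans (mul_le_mul_of_nonneg_left ?_ (sq_nonneg _))
    have e : ((2 : ℕ) : ℝ) * (-(|x| - c) ^ 2 / 2) = -(|x| - c) ^ 2 := by push_cast; ring
    rw [e]
    rcases le_total 0 x with h | h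
    · rw [abs_of_nonneg h]
      linarith [Real.exp_pos (-(x - -c) ^ 2)]
    · rw [abs_of_nonpos h]
      have e2 : -(-x - c) ^ 2 = -(x - -c) ^ 2 := by ring
      rw [e2]
      linarith [Real.exp_pos (-(x - c) ^ 2)]
  obtain ⟨F, hF⟩ : ∃ F : ℝ → ℝ, F = fun x => B ^ 2 * (Real.exp (-(x - c) ^ 2) + Real.exp (-(x - -c) ^ 2)) :=
    ⟨_, rfl⟩
  have hFi : Integrable F := by
    rw [hF]
    exact ((hg c).add (hg (-c))).const_mul _
  have hFn : ∀ x, 0 ≤ F x := fun x => by rw [hF]; positivity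
  have hFv : ∫ x, F x = B ^ 2 * (2 * Real.sqrt Real.pi) := by
    rw [hF, integral_const_mul, integral_add (hg c) (hg (-c)), hgv, hgv]
    ring
  have hind : ∀ A : ℝ, Integrable (Set.indicator (Set.Icc (-c) c) fun _ : ℝ => A) := by
    intro A
    refine (integrable_indicator_iff measurableSet_Icc).2 ?_
    exact integrableOn_const (by simp)
  have hQ2 : Integrable fun x => QG q L x ^ 2 := by
    refine ((hind (B ^ 2)).add hFi).mono' (hcont.pow 2).aestronglyMeasurable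
      (Eventually.of_forall fun x => ?_)
    rw [Real.norm_eq_abs, abs_of_nonneg (sq_nonneg _), Pi.add_apply]
    by_cases hx : x ∈ Set.Icc (-c) c
    · rw [Set.indicator_of_mem hx]
      have h1 := pow_le_pow_left₀ (abs_nonneg _) (hQc x) 2
      rw [sq_abs] at h1
      linarith [hFn x]
    · rw [Set.indicator_of_notMem hx]
      have h1 : c ≤ |x| := by
        by_contra h
        push Not at h
        exact hx ⟨(abs_lt.1 h).1.le, (abs_lt.1 h).2.le⟩
      have := hsq x h1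
      rw [hF]
      linarith
  have hqL : Continuous fun x : ℝ => q (x / L) := hc.comp (by fun_prop)
  have hqs : ∀ x : ℝ, c ≤ |x| → q (x / L) = 0 := by
    intro x hx
    refine hs _ ?_
    rw [abs_div, abs_of_pos hL, le_div_iff₀ hL, ← hcd]
    exact hx
  have hq2 : Integrable fun x : ℝ => q (x / L) ^ 2 := by
    refine (hind (B ^ 2)).mono' (hqL.pow 2).aestronglyMeasurable (Eventually.of_forall fun x => ?_)
    rw [Real.norm_eq_abs, abs_of_nonneg (sq_nonneg _)]
    by_cases hx : x ∈ Set.Icc (-c) c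
    · rw [Set.indicator_of_mem hx]
      have h1 := pow_le_pow_left₀ (abs_nonneg _) (hB (x / L)) 2
      rwa [sq_abs] at h1
    · rw [Set.indicator_of_notMem hx]
      have h1 : c ≤ |x| := by
        by_contra h
        push Not at h
        exact hx ⟨(abs_lt.1 h).1.le, (abs_lt.1 h).2.le⟩
      rw [hqs x h1]
      norm_num
  refine ⟨hcont, QG_even he L, fun x => (hQc x).trans hDB, hlip, ?_, hQ2, ?_, ?_⟩
  · intro x hx
    rw [← hcd] at hx ⊢
    exact (htail x hx).trans (mul_le_mul_of_nonneg_right hDB (Real.exp_pos _).le)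
  · have h1 : L * ∫ v : ℝ, q v ^ 2 = ∫ x : ℝ, q (x / L) ^ 2 := by
      have h2 := Measure.integral_comp_div (fun v : ℝ => q v ^ 2) L
      rw [h2, smul_eq_mul, abs_of_pos hL]
    rw [h1, ← integral_sub hQ2 hq2, ← Real.norm_eq_abs]
    have h2 : ∀ x : ℝ, ‖QG q L x ^ 2 - q (x / L) ^ 2‖ ≤
        Set.indicator (Set.Icc (-c) c) (fun _ : ℝ => 4 * B * D0 / L) x + F x := by
      intro x
      rw [Real.norm_eq_abs]
      by_cases hx : x ∈ Set.Icc (-c) c
      · rw [Set.indicator_of_mem hx]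
        have h3 := QG_close hc hB hq hL x
        have h4 : |QG q L x + q (x / L)| ≤ 2 * B := by
          refine (abs_add_le _ _).trans ?_
          linarith [hQc x, hB (x / L)]
        have h5 : |QG q L x ^ 2 - q (x / L) ^ 2| ≤ 2 * B * (2 * D0 / L) := by
          have e : QG q L x ^ 2 - q (x / L) ^ 2 = (QG q L x + q (x / L)) * (QG q L x - q (x / L)) := by
            ring
          rw [e, abs_mul]
          exact mul_le_mul h4 h3 (abs_nonneg _) (by positivity)
        have h6 : 2 * B * (2 * D0 / L) = 4 * B * D0 / L := by ring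
        rw [h6] at h5
        linarith [hFn x]
      · rw [Set.indicator_of_notMem hx]
        have h1 : c ≤ |x| := by
          by_contra h
          push Not at h
          exact hx ⟨(abs_lt.1 h).1.le, (abs_lt.1 h).2.le⟩
        rw [hqs x h1]
        have := hsq x h1
        rw [hF]
        have h3 : QG q L x ^ 2 - 0 ^ 2 = QG q L x ^ 2 := by ring
        rw [h3, abs_of_nonneg (sq_nonneg _)]
        linarith
    refine (norm_integral_le_of_norm_le ((hind _).add hFi) (Eventually.of_forall h2)).trans ?_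
    have h3 : ∫ x, (Set.indicator (Set.Icc (-c) c) (fun _ : ℝ => 4 * B * D0 / L) + F) x =
        (2 * c) * (4 * B * D0 / L) + B ^ 2 * (2 * Real.sqrt Real.pi) := by
      rw [integral_add' (hind _) hFi, integral_indicator measurableSet_Icc, setIntegral_const, hFv]
      simp only [measureReal_def, Real.volume_Icc, smul_eq_mul]
      rw [ENNReal.toReal_ofReal (by linarith)]
      ring
    rw [h3]
    have h4 : (2 * c) * (4 * B * D0 / L) = 16 * δ * (B * D0) := by
      rw [hcd]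
      field_simp
      ring
    have h5 : Real.sqrt Real.pi ≤ 2 := by
      rw [Real.sqrt_le_left (by norm_num)]
      nlinarith [Real.pi_le_four]
    rw [h4, hD]
    have h6 : B ^ 2 * (2 * Real.sqrt Real.pi) ≤ B ^ 2 * (2 * 2) :=
      mul_le_mul_of_nonneg_left (by linarith) (sq_nonneg _)
    linarith
  · have h1 := QG_close hc hB hq hL 0
    rw [zero_div] at h1
    exact h1.trans (div_le_div_of_nonneg_right hD2 hL.le)

end

end

end Pool.Agent.Q247.UM
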