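import Mathlib

/-!
Project UM2 of helper97, job OMEX: band-limited kernels with nonnegative Fourier transform.
-/

set_option autoImplicit false

namespace Pool.Agent.Q247.UM

open Filter Topology MeasureTheory Complex

noncomputable section

/-- the transform of a function supported in `[-δ, δ]` -/
def Fk (δ : ℝ) (g : ℝ → ℝ) (z : ℂ) : ℂ := ∫ v in (-δ)..δ, (g v : ℂ) * cexp (I * (v * z))

/-- smooth and supported in `[-c, c]` -/
def Sm (c : ℝ) (g : ℝ → ℝ) : Prop := ContDiff ℝ ((⊤ : ℕ∞) : WithTop ℕ∞) g ∧ ∀ v, c < |v| → g v = 0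

theorem norm_e (v : ℝ) (z : ℂ) : ‖cexp (I * (v * z))‖ = Real.exp (-(v * z.im)) := by
  rw [Complex.norm_exp]
  congr 1
  simp

theorem norm_e_le {δ v : ℝ} (hv : |v| ≤ δ) (z : ℂ) : ‖cexp (I * (v * z))‖ ≤ Real.exp (δ * |z.im|) := by
  rw [norm_e]
  refine Real.exp_le_exp.2 ?_
  calc -(v * z.im) ≤ |v * z.im| := neg_le_abs _
    _ = |v| * |z.im| := abs_mul _ _
    _ ≤ δ * |z.im| := mul_le_mul_of_nonneg_right hv (abs_nonneg _)

theorem Fk_bd {δ : ℝ} (hδ : 0 < δ) {g : ℝ → ℝ} (hg : Continuous g) (z : ℂ) :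
    ‖Fk δ g z‖ ≤ (∫ v in (-δ)..δ, |g v|) * Real.exp (δ * |z.im|) := by
  unfold Fk
  rw [← intervalIntegral.integral_mul_const]
  refine intervalIntegral.norm_integral_le_of_norm_le (by linarith) ?_ ?_
  · refine Eventually.of_forall fun v hv => ?_
    rw [norm_mul, Complex.norm_real, Real.norm_eq_abs]
    refine mul_le_mul_of_nonneg_left (norm_e_le (abs_le.2 ⟨hv.1.le, hv.2⟩) z) (abs_nonneg _)
  · exact (hg.abs.mul continuous_const).intervalIntegrable _ _

theorem Sm.deriv {c : ℝ} {g : ℝ → ℝ} (hg : Sm c g) : Sm c (deriv g) := by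
  refine ⟨(contDiff_infty_iff_deriv.1 hg.1).2, fun v hv => ?_⟩
  have h1 : g =ᶠ[𝓝 v] fun _ => 0 := by
    have h2 : ∀ᶠ w in 𝓝 v, c < |w| := continuous_abs.continuousAt.eventually (lt_mem_nhds hv)
    filter_upwards [h2] with w hw
    exact hg.2 w hw
  rw [h1.deriv_eq]
  simp

theorem Fk_parts {c δ : ℝ} (hcδ : c < δ) (hδ : 0 < δ) {g : ℝ → ℝ} (hg : Sm c g) (z : ℂ) :
    (I * z) * Fk δ g z = -Fk δ (deriv g) z := by
  have hd : ∀ v, HasDerivAt (fun v : ℝ => (g v : ℂ)) ((deriv g v : ℝ) : ℂ) v := fun v =>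
    ((hg.1.differentiable (by simp)) v).hasDerivAt.ofReal_comp
  have he : ∀ v : ℝ, HasDerivAt (fun v : ℝ => cexp (I * (v * z))) (I * z * cexp (I * (v * z))) v := by
    intro v
    have h1 : HasDerivAt (fun v : ℝ => I * ((v : ℂ) * z)) (I * (1 * z)) v :=
      ((Complex.ofRealCLM.hasDerivAt (x := v)).mul_const z).const_mul I
    have h2 := h1.cexp
    refine h2.congr_deriv ?_
    ring
  have hgc : Continuous (deriv g) := hg.deriv.1.continuous
  have h1 := intervalIntegral.integral_mul_deriv_eq_deriv_mul (a := -δ) (b := δ)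
    (u := fun v : ℝ => (g v : ℂ)) (u' := fun v : ℝ => ((deriv g v : ℝ) : ℂ))
    (v := fun v : ℝ => cexp (I * (v * z))) (v' := fun v : ℝ => I * z * cexp (I * (v * z)))
    (fun v _ => hd v) (fun v _ => he v)
    ((Complex.continuous_ofReal.comp hgc).intervalIntegrable _ _)
    ((by fun_prop : Continuous fun v : ℝ => I * z * cexp (I * (v * z))).intervalIntegrable _ _)
  have g1 : g δ = 0 := hg.2 δ (by rw [abs_of_pos hδ]; exact hcδ)
  have g2 : g (-δ) = 0 := hg.2 (-δ) (by rw [abs_neg, abs_of_pos hδ]; exact hcδ)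
  rw [g1, g2] at h1
  unfold Fk
  rw [← intervalIntegral.integral_const_mul]
  have e : ∀ v : ℝ, (I * z) * ((g v : ℂ) * cexp (I * (v * z))) = (g v : ℂ) * (I * z * cexp (I * (v * z))) :=
    fun v => by ring
  simp only [e]
  rw [h1]
  simp

theorem Fk_pow {c δ : ℝ} (hcδ : c < δ) (hδ : 0 < δ) (m : ℕ) : ∀ g : ℝ → ℝ, Sm c g →
    ∃ A : ℝ, 0 ≤ A ∧ ∀ z : ℂ, ‖z‖ ^ m * ‖Fk δ g z‖ ≤ A * Real.exp (δ * |z.im|) := by
  induction m with
  | zero =>
    intro g hg
    refine ⟨∫ v in (-δ)..δ, |g v|, intervalIntegral.integral_nonneg (by linarith)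
      (fun _ _ => abs_nonneg _), fun z => ?_⟩
    rw [pow_zero, one_mul]
    exact Fk_bd hδ hg.1.continuous z
  | succ m ih =>
    intro g hg
    obtain ⟨A, hA, h⟩ := ih _ hg.deriv
    refine ⟨A, hA, fun z => ?_⟩
    have h1 := congrArg norm (Fk_parts hcδ hδ hg z)
    rw [norm_mul, norm_mul, Complex.norm_I, one_mul, norm_neg] at h1
    rw [pow_succ, mul_assoc, h1]
    exact h z

theorem Fk_decay {c δ : ℝ} (hcδ : c < δ) (hδ : 0 < δ) (m : ℕ) {g : ℝ → ℝ} (hg : Sm c g) :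
    ∃ A : ℝ, 0 < A ∧ ∀ z : ℂ, ‖Fk δ g z‖ ≤ A * Real.exp (δ * |z.im|) / (1 + |z.re|) ^ m := by
  obtain ⟨A0, hA0, h0⟩ := Fk_pow hcδ hδ 0 g hg
  obtain ⟨A1, hA1, h1⟩ := Fk_pow hcδ hδ m g hg
  refine ⟨2 ^ m * (A0 + A1) + 1, by positivity, fun z => ?_⟩
  rw [le_div_iff₀ (by positivity)]
  have h2 := h0 z
  have h3 := h1 z
  rw [pow_zero, one_mul] at h2
  have h4 : (1 + |z.re|) ^ m ≤ 2 ^ m * (1 + ‖z‖ ^ m) := by
    have h5 : 1 + |z.re| ≤ 2 * max 1 ‖z‖ := by
      have := le_max_left 1 ‖z‖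
      have := le_max_right 1 ‖z‖
      have := Complex.abs_re_le_norm z
      linarith
    calc (1 + |z.re|) ^ m ≤ (2 * max 1 ‖z‖) ^ m := pow_le_pow_left₀ (by positivity) h5 m
      _ = 2 ^ m * (max 1 ‖z‖) ^ m := mul_pow _ _ _
      _ ≤ 2 ^ m * (1 + ‖z‖ ^ m) := by
        refine mul_le_mul_of_nonneg_left ?_ (by positivity)
        rcases le_total 1 ‖z‖ with h | h
        · rw [max_eq_right h]
          linarith
        · rw [max_eq_left h, one_pow]
          have : 0 ≤ ‖z‖ ^ m := by positivity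
          linarith
  have h5 : ‖Fk δ g z‖ * (1 + |z.re|) ^ m ≤ ‖Fk δ g z‖ * (2 ^ m * (1 + ‖z‖ ^ m)) :=
    mul_le_mul_of_nonneg_left h4 (norm_nonneg _)
  have h6 : ‖Fk δ g z‖ * (2 ^ m * (1 + ‖z‖ ^ m)) =
      2 ^ m * (‖Fk δ g z‖ + ‖z‖ ^ m * ‖Fk δ g z‖) := by ring
  have h7 : 2 ^ m * (‖Fk δ g z‖ + ‖z‖ ^ m * ‖Fk δ g z‖) ≤
      2 ^ m * (A0 * Real.exp (δ * |z.im|) + A1 * Real.exp (δ * |z.im|)) :=
    mul_le_mul_of_nonneg_left (add_le_add h2 h3) (by positivity)
  have h8 := Real.exp_pos (δ * |z.im|)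
  nlinarith

/-- the transform as an integral over the line -/
theorem Fk_line {c δ : ℝ} (hcδ : c < δ) (hδ : 0 < δ) {g : ℝ → ℝ} (hg : Sm c g) (z : ℂ) :
    Fk δ g z = ∫ v : ℝ, (g v : ℂ) * cexp (I * (v * z)) := by
  unfold Fk
  rw [intervalIntegral.integral_of_le (by linarith : -δ ≤ δ)]
  refine setIntegral_eq_integral_of_forall_compl_eq_zero fun v hv => ?_
  have h1 : c < |v| := by
    by_contra h
    push Not at h
    have h2 := abs_le.1 h
    exact hv ⟨by linarith [h2.1], by linarith [h2.2]⟩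
  rw [hg.2 v h1]
  simp

theorem Fk_cont {δ : ℝ} {g : ℝ → ℝ} (hg : Continuous g) : Continuous (Fk δ g) := by
  unfold Fk
  exact intervalIntegral.continuous_parametric_intervalIntegral_of_continuous'
    (f := fun (z : ℂ) (v : ℝ) => (g v : ℂ) * cexp (I * (v * z)))
    (((Complex.continuous_ofReal.comp hg).comp continuous_snd).mul (by fun_prop)) _ _

/-- integrability along horizontal lines, with a majorant -/
theorem Fk_int {c δ : ℝ} (hcδ : c < δ) (hδ : 0 < δ) {g : ℝ → ℝ} (hg : Sm c g) (y : ℝ) :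
    Integrable fun x : ℝ => Fk δ g (x + y * I) := by
  obtain ⟨A, hA, h⟩ := Fk_decay hcδ hδ 2 hg
  refine (integrable_inv_one_add_sq.const_mul (A * Real.exp (δ * |y|))).mono'
    ((Fk_cont hg.1.continuous).comp (by fun_prop)).aestronglyMeasurable (Eventually.of_forall fun x => ?_)
  have h1 := h (x + y * I)
  have e1 : ((x : ℂ) + y * I).re = x := by simp
  have e2 : ((x : ℂ) + y * I).im = y := by simp
  rw [e1, e2] at h1
  refine h1.trans ?_
  rw [div_eq_mul_inv]
  refine mul_le_mul_of_nonneg_left (inv_anti₀ (by positivity) ?_) (by positivity)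
  nlinarith [abs_nonneg x, sq_abs x]

/-- Fourier inversion on horizontal lines -/
theorem Fk_inv {c δ : ℝ} (hcδ : c < δ) (hδ : 0 < δ) {g : ℝ → ℝ} (hg : Sm c g) (y : ℝ) :
    ∫ x : ℝ, Fk δ g (x + y * I) = 2 * Real.pi * g 0 := by
  obtain ⟨f, hf⟩ : ∃ f : ℝ → ℂ, f = fun v : ℝ => (g v : ℂ) * cexp (I * (v * (y * I))) := ⟨_, rfl⟩
  have hfc : Continuous f := by
    rw [hf]
    exact (Complex.continuous_ofReal.comp hg.1.continuous).mul (by fun_prop)
  have hfs : HasCompactSupport f := by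
    refine HasCompactSupport.of_support_subset_isCompact (isCompact_Icc (a := -δ) (b := δ)) ?_
    intro v hv
    by_contra hcon
    apply hv
    have h1 : c < |v| := by
      by_contra h
      push Not at h
      have h2 := abs_le.1 h
      exact hcon ⟨by linarith [h2.1], by linarith [h2.2]⟩
    rw [hf]
    simp only
    rw [hg.2 v h1]
    simp
  have hfi : Integrable f := hfc.integrable_of_hasCompactSupport hfs
  have hFT : ∀ ξ : ℝ, FourierTransform.fourier f ξ = Fk δ g (((-(2 * Real.pi) * ξ : ℝ) : ℂ) + y * I) := by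
    intro ξ
    rw [Real.fourier_real_eq_integral_exp_smul, Fk_line hcδ hδ hg]
    refine integral_congr_ae (Eventually.of_forall fun v => ?_)
    simp only
    rw [hf]
    simp only
    rw [smul_eq_mul, mul_left_comm, ← Complex.exp_add]
    congr 2
    push_cast
    ring
  have hpi := Real.pi_pos
  have hFi : Integrable (FourierTransform.fourier f) := by
    have h1 := (Fk_int hcδ hδ hg y).comp_mul_left' (R := -(2 * Real.pi))
      (neg_ne_zero.2 (by positivity))
    refine h1.congr (Eventually.of_forall fun ξ => ?_)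
    simp only
    rw [hFT]
  have h2 := hfi.fourierInv_fourier_eq hFi (v := 0) hfc.continuousAt
  rw [Real.fourierInv_eq'] at h2
  have h3 : ∫ ξ : ℝ, FourierTransform.fourier f ξ = g 0 := by
    have h4 : f 0 = g 0 := by
      rw [hf]
      simp
    rw [← h4, ← h2]
    refine integral_congr_ae (Eventually.of_forall fun ξ => ?_)
    simp
  simp only [hFT] at h3
  have h5 := Measure.integral_comp_mul_left (fun x : ℝ => Fk δ g (x + y * I)) (-(2 * Real.pi))
  rw [h5] at h3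
  have h6 : |(-(2 * Real.pi))⁻¹| = (2 * Real.pi)⁻¹ := by
    rw [inv_neg, abs_neg, abs_of_pos (by positivity)]
  rw [h6] at h3
  have h7 : ((2 * Real.pi : ℝ) : ℂ) ≠ 0 := by exact_mod_cast (by positivity : (2 * Real.pi : ℝ) ≠ 0)
  rw [← h3, Complex.real_smul, Complex.ofReal_inv]
  push_cast at h7 ⊢
  field_simp

end

end Pool.Agent.Q247.UM
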