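import Pool.Agent.Q247.UM.Ker

/-!
Project UM2 of helper97, job OMEX: existence of the kernel.
-/

set_option autoImplicit false

namespace Pool.Agent.Q247.UM

open Filter Topology MeasureTheory Complex

noncomputable section

/-- a smooth even function with small support, value `1/(2π)` at `0` and nonnegative Fourier transform -/
theorem ker_exists {δ : ℝ} (hδ : 0 < δ) : ∃ g : ℝ → ℝ, Sm (δ / 2) g ∧ (∀ v, g (-v) = g v) ∧
    g 0 = 1 / (2 * Real.pi) ∧ ∀ x : ℝ, ∃ r : ℝ, 0 ≤ r ∧ Fk δ g x = r := by
  obtain ⟨φ, hφ⟩ : ∃ φ : ContDiffBump (0 : ℝ), φ.rOut = δ / 4 := ⟨⟨δ / 8, δ / 4, by linarith, by linarith⟩, rfl⟩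
  obtain ⟨f, hf⟩ : ∃ f : ℝ → ℝ, f = fun v => φ v := ⟨_, rfl⟩
  have hfc : Continuous f := by rw [hf]; exact φ.continuous
  have hfd : ContDiff ℝ ((⊤ : ℕ∞) : WithTop ℕ∞) f := by rw [hf]; exact φ.contDiff
  have hfs : HasCompactSupport f := by rw [hf]; exact φ.hasCompactSupport
  have hf0 : ∀ v, 0 ≤ f v := by rw [hf]; exact fun v => φ.nonneg
  have hfe : ∀ v, f (-v) = f v := by rw [hf]; exact fun v => φ.neg v
  have hfz : ∀ v, δ / 4 ≤ |v| → f v = 0 := by
    intro v hv
    rw [hf]
    refine φ.zero_of_le_dist ?_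
    rw [hφ, Real.dist_eq, sub_zero]
    exact hv
  have hf1 : f 0 ≠ 0 := by
    rw [hf]
    simp only
    rw [φ.one_of_mem_closedBall (by simp [φ.rIn_pos.le])]
    exact one_ne_zero
  obtain ⟨G, hG⟩ : ∃ G : ℝ → ℝ, G = convolution f f (ContinuousLinearMap.mul ℝ ℝ) volume := ⟨_, rfl⟩
  have hGv : ∀ v, G v = ∫ t, f t * f (v - t) := by
    intro v
    rw [hG]
    rfl
  have hGd : ContDiff ℝ ((⊤ : ℕ∞) : WithTop ℕ∞) G := by
    rw [hG]
    exact hfs.contDiff_convolution_right _ hfc.locallyIntegrable hfd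
  have hGz : ∀ v, δ / 2 < |v| → G v = 0 := by
    intro v hv
    rw [hGv]
    have h1 : ∀ t, f t * f (v - t) = 0 := by
      intro t
      by_cases ht : δ / 4 ≤ |t|
      · rw [hfz t ht, zero_mul]
      · push Not at ht
        have h2 : δ / 4 ≤ |v - t| := by
          have := abs_sub_abs_le_abs_sub v t
          linarith
        rw [hfz _ h2, mul_zero]
    simp only [h1, integral_zero]
  have hGe : ∀ v, G (-v) = G v := by
    intro v
    rw [hGv, hGv, ← integral_neg_eq_self]
    refine integral_congr_ae (Eventually.of_forall fun t => ?_)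
    simp only
    rw [hfe, show -v - -t = -(v - t) by ring, hfe]
  have hG0 : 0 < G 0 := by
    rw [hGv]
    have e : (fun t => f t * f (0 - t)) = fun t => f t * f t := by
      funext t
      rw [zero_sub, hfe]
    rw [e]
    refine Continuous.integral_pos_of_hasCompactSupport_nonneg_nonzero (hfc.mul hfc)
      (hfs.mul_left) (fun t => mul_nonneg (hf0 t) (hf0 t)) (x := 0) ?_
    exact mul_ne_zero hf1 hf1
  have hpi := Real.pi_pos
  have hK : 0 < 2 * Real.pi * G 0 := by positivity
  refine ⟨fun v => (1 / (2 * Real.pi * G 0)) * G v, ⟨?_, ?_⟩, ?_, ?_, ?_⟩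
  · exact contDiff_const.mul hGd
  · intro v hv
    simp only [hGz v hv, mul_zero]
  · intro v
    simp only [hGe]
  · field_simp
  · intro x
    obtain ⟨F1, hF1⟩ : ∃ F1 : ℝ → ℂ, F1 = fun v : ℝ => (f v : ℂ) * cexp (I * (v * (x : ℂ))) := ⟨_, rfl⟩
    have hF1c : Continuous F1 := by
      rw [hF1]
      exact (Complex.continuous_ofReal.comp hfc).mul (by fun_prop)
    have hF1s : HasCompactSupport F1 := by
      rw [hF1]
      exact HasCompactSupport.mul_right (hfs.comp_left (g := fun x : ℝ => (x : ℂ)) Complex.ofReal_zero)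
    have hF1i : Integrable F1 := hF1c.integrable_of_hasCompactSupport hF1s
    have h1 := integral_convolution (ContinuousLinearMap.mul ℂ ℂ) hF1i hF1i
      (μ := volume) (ν := volume)
    have h2 : ∀ v : ℝ, (convolution F1 F1 (ContinuousLinearMap.mul ℂ ℂ) volume) v =
        (G v : ℂ) * cexp (I * (v * (x : ℂ))) := by
      intro v
      rw [hGv, ← integral_complex_ofReal, ← integral_mul_const]
      show ∫ t, F1 t * F1 (v - t) = _
      refine integral_congr_ae (Eventually.of_forall fun t => ?_)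
      simp only
      rw [hF1]
      simp only
      have e : cexp (I * (v * (x : ℂ))) = cexp (I * (t * (x : ℂ))) * cexp (I * (((v - t : ℝ) : ℂ) * (x : ℂ))) := by
        rw [← Complex.exp_add]
        congr 1
        push_cast
        ring
      rw [e]
      push_cast
      ring
    have h3 : ∫ v : ℝ, (G v : ℂ) * cexp (I * (v * (x : ℂ))) = (∫ v, F1 v) ^ 2 := by
      rw [sq]
      have h4 : (∫ v, (convolution F1 F1 (ContinuousLinearMap.mul ℂ ℂ) volume) v) =
          (∫ v, F1 v) * ∫ v, F1 v := h1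
      simp only [h2] at h4
      exact h4
    have h4 : (starRingEnd ℂ) (∫ v, F1 v) = ∫ v, F1 v := by
      rw [← integral_conj, ← integral_neg_eq_self]
      refine integral_congr_ae (Eventually.of_forall fun v => ?_)
      simp only
      rw [hF1]
      simp only
      rw [map_mul, Complex.conj_ofReal, hfe, ← Complex.exp_conj]
      congr 2
      simp only [map_mul, Complex.conj_I, Complex.conj_ofReal]
      push_cast
      ring
    obtain ⟨r, hr⟩ := Complex.conj_eq_iff_real.1 h4
    have hSm : Sm (δ / 2) G := ⟨hGd, hGz⟩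
    have h5 : Fk δ G x = ((r ^ 2 : ℝ) : ℂ) := by
      rw [Fk_line (by linarith : δ / 2 < δ) hδ hSm, h3, hr]
      push_cast
      ring
    refine ⟨1 / (2 * Real.pi * G 0) * r ^ 2, by positivity, ?_⟩
    have h6 : Fk δ (fun v => 1 / (2 * Real.pi * G 0) * G v) x =
        ((1 / (2 * Real.pi * G 0) : ℝ) : ℂ) * Fk δ G x := by
      unfold Fk
      rw [← intervalIntegral.integral_const_mul]
      refine intervalIntegral.integral_congr fun v _ => ?_
      simp only
      push_cast
      ring
    rw [h6, h5]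
    push_cast
    ring

end

end Pool.Agent.Q247.UM
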