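import Pool.Agent.Q247.UM.Ker2
import Pool.Agent.Q97.UM.Stm6

/-!
Project UM2 of helper97, job OMEX: existence of the band-limited window.
-/

set_option autoImplicit false

namespace Pool.Agent.Q247.UM

open Filter Topology MeasureTheory Complex
open Pool.Agent.Q97.UM (OmW om S_OMEX)

noncomputable section

/-- the cosine factor -/
def cH (H v : ℝ) : ℝ := ∫ X in (-H)..H, Real.cos (v * X)

theorem cH_bd {H : ℝ} (hH : 0 ≤ H) (v : ℝ) : |cH H v| ≤ 2 * H := by
  unfold cH
  have h := intervalIntegral.norm_integral_le_of_norm_le_const (a := -H) (b := H) (C := 1)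
    (f := fun X : ℝ => Real.cos (v * X)) (fun X _ => by
      rw [Real.norm_eq_abs]
      exact Real.abs_cos_le_one _)
  rw [Real.norm_eq_abs] at h
  refine h.trans (le_of_eq ?_)
  rw [abs_of_nonneg (by linarith : (0 : ℝ) ≤ H - -H)]
  ring

theorem cH_lip {H : ℝ} (hH : 0 ≤ H) (v v' : ℝ) : |cH H v - cH H v'| ≤ 2 * H ^ 2 * |v - v'| := by
  unfold cH
  rw [← intervalIntegral.integral_sub ((by fun_prop : Continuous fun X : ℝ =>
    Real.cos (v * X)).intervalIntegrable _ _) ((by fun_prop : Continuous fun X : ℝ =>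
    Real.cos (v' * X)).intervalIntegrable _ _)]
  have h := intervalIntegral.norm_integral_le_of_norm_le_const (a := -H) (b := H)
    (C := H * |v - v'|)
    (f := fun X : ℝ => Real.cos (v * X) - Real.cos (v' * X)) (fun X hX => by
      rw [Set.uIoc_of_le (by linarith)] at hX
      have h1 : |X| ≤ H := abs_le.2 ⟨hX.1.le, hX.2⟩
      rw [Real.norm_eq_abs]
      have h2 : |Real.cos (v * X) - Real.cos (v' * X)| ≤ |v * X - v' * X| :=
        Real.abs_cos_sub_cos_le _ _
      refine h2.trans ?_
      rw [← sub_mul, abs_mul, mul_comm]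
      exact mul_le_mul_of_nonneg_right h1 (abs_nonneg _))
  rw [Real.norm_eq_abs] at h
  refine h.trans (le_of_eq ?_)
  rw [abs_of_nonneg (by linarith : (0 : ℝ) ≤ H - -H)]
  ring

theorem cH_even (H v : ℝ) : cH H (-v) = cH H v := by
  unfold cH
  refine intervalIntegral.integral_congr fun X _ => ?_
  rw [neg_mul, Real.cos_neg]

/-- the cosine factor as an exponential integral -/
theorem cH_exp (H v : ℝ) : (cH H v : ℂ) = ∫ X in (-H)..H, cexp (-(I * (v * X))) := by
  have h1 : ∀ X : ℝ, cexp (-(I * (v * X))) = ((Real.cos (v * X) : ℝ) : ℂ) - ((Real.sin (v * X) : ℝ) : ℂ) * I := by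
    intro X
    have e : -(I * ((v : ℂ) * X)) = ((-(v * X) : ℝ) : ℂ) * I := by
      push_cast
      ring
    rw [e, Complex.exp_mul_I, ← Complex.ofReal_cos, ← Complex.ofReal_sin, Real.cos_neg, Real.sin_neg]
    push_cast
    ring
  simp only [h1]
  rw [intervalIntegral.integral_sub, intervalIntegral.integral_mul_const,
    intervalIntegral.integral_ofReal, intervalIntegral.integral_ofReal]
  · have h2 : ∫ X in (-H)..H, Real.sin (v * X) = 0 := by
      have h3 := intervalIntegral.integral_comp_neg (a := -H) (b := H) (fun X : ℝ => Real.sin (v * X))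
      have h4 : (fun X : ℝ => Real.sin (v * -X)) = fun X : ℝ => -Real.sin (v * X) := by
        funext X
        rw [mul_neg, Real.sin_neg]
      rw [h4, neg_neg, intervalIntegral.integral_neg] at h3
      linarith
    rw [h2]
    unfold cH
    simp
  · exact (Complex.continuous_ofReal.comp (by fun_prop)).intervalIntegrable _ _
  · exact ((Complex.continuous_ofReal.comp (by fun_prop)).mul continuous_const).intervalIntegrable _ _

/-- exchange of the order of integration, complex values -/
theorem swap_cont {F : ℝ → ℝ → ℂ} (hF : Continuous F.uncurry) (a b c d : ℝ) :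
    ∫ x in a..b, ∫ y in c..d, F x y = ∫ y in c..d, ∫ x in a..b, F x y := by
  refine intervalIntegral_intervalIntegral_swap ?_
  refine (hF.continuousOn.integrableOn_compact
    (K := Set.uIcc a b ×ˢ Set.uIcc c d) (isCompact_uIcc.prod isCompact_uIcc)).mono_set ?_
  exact Set.prod_mono Set.uIoc_subset_uIcc Set.uIoc_subset_uIcc

/-- the window -/
def wH (g : ℝ → ℝ) (H v : ℝ) : ℝ := g v * cH H v

theorem om_wH {c δ : ℝ} (hcδ : c < δ) (hδ : 0 < δ) {g : ℝ → ℝ} (hg : Sm c g) (H : ℝ) (z : ℂ) :
    om (wH g H) z = ∫ X in (-H)..H, Fk δ g (z - X) := by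
  have h1 : om (wH g H) z = ∫ v in (-δ)..δ, (wH g H v : ℂ) * cexp (I * (v * z)) := by
    unfold om
    rw [intervalIntegral.integral_of_le (by linarith : -δ ≤ δ)]
    refine (setIntegral_eq_integral_of_forall_compl_eq_zero fun v hv => ?_).symm
    have h1 : c < |v| := by
      by_contra h
      push Not at h
      have h2 := abs_le.1 h
      exact hv ⟨by linarith [h2.1], by linarith [h2.2]⟩
    unfold wH
    rw [hg.2 v h1]
    simp
  rw [h1]
  have h2 : ∀ X : ℝ, Fk δ g (z - X) = ∫ v in (-δ)..δ, (g v : ℂ) * cexp (I * (v * z)) * cexp (-(I * (v * X))) := by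
    intro X
    unfold Fk
    refine intervalIntegral.integral_congr fun v _ => ?_
    rw [mul_assoc, ← Complex.exp_add]
    congr 2
    ring
  simp only [h2]
  have hc : Continuous (Function.uncurry fun (X v : ℝ) =>
      (g v : ℂ) * cexp (I * (v * z)) * cexp (-(I * (v * X)))) :=
    (((Complex.continuous_ofReal.comp hg.1.continuous).comp continuous_snd).mul (by fun_prop)).mul
      (by fun_prop)
  rw [swap_cont hc]
  refine intervalIntegral.integral_congr fun v _ => ?_
  rw [intervalIntegral.integral_const_mul, ← cH_exp]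
  unfold wH
  push_cast
  ring

/-- the pointwise majorant -/
theorem maj {A δ : ℝ} {K : ℕ} (hA : 0 < A) {g : ℝ → ℝ}
    (h : ∀ z : ℂ, ‖Fk δ g z‖ ≤ A * Real.exp (δ * |z.im|) / (1 + |z.re|) ^ (K + 2)) (z : ℂ) (X d : ℝ)
    (hd : 0 ≤ d) (hX : d ≤ |z.re - X|) :
    ‖Fk δ g (z - X)‖ ≤ A * Real.exp (δ * |z.im|) / (1 + d) ^ K * (1 + (z.re - X) ^ 2)⁻¹ := by
  have h1 := h (z - X)
  have e1 : (z - (X : ℂ)).re = z.re - X := by simp
  have e2 : (z - (X : ℂ)).im = z.im := by simp
  rw [e1, e2] at h1
  refine h1.trans ?_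
  rw [div_mul_eq_mul_div, div_le_div_iff₀ (by positivity) (by positivity)]
  have h2 : (1 + d) ^ K ≤ (1 + |z.re - X|) ^ K := pow_le_pow_left₀ (by positivity) (by linarith) K
  have h3 : 1 + (z.re - X) ^ 2 ≤ (1 + |z.re - X|) ^ 2 := by
    nlinarith [abs_nonneg (z.re - X), sq_abs (z.re - X)]
  have h4 : (1 + d) ^ K ≤ (1 + (z.re - X) ^ 2)⁻¹ * (1 + |z.re - X|) ^ (K + 2) := by
    rw [inv_mul_eq_div, le_div_iff₀ (by positivity), pow_add]
    exact mul_le_mul h2 h3 (by positivity) (by positivity)
  have h5 : 0 < A * Real.exp (δ * |z.im|) := by positivity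
  calc A * Real.exp (δ * |z.im|) * (1 + d) ^ K ≤
      A * Real.exp (δ * |z.im|) * ((1 + (z.re - X) ^ 2)⁻¹ * (1 + |z.re - X|) ^ (K + 2)) :=
        mul_le_mul_of_nonneg_left h4 h5.le
    _ = _ := by ring

theorem maj_int (x : ℝ) : Integrable fun X : ℝ => (1 + (x - X) ^ 2)⁻¹ :=
  integrable_inv_one_add_sq.comp_sub_left x

theorem maj_val (x : ℝ) : ∫ X : ℝ, (1 + (x - X) ^ 2)⁻¹ = Real.pi := by
  rw [integral_sub_left_eq_self (fun X : ℝ => (1 + X ^ 2)⁻¹) volume x, integral_univ_inv_one_add_sq]

theorem t_OMEX : S_OMEX := by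
  intro K δ hδ hδ1
  obtain ⟨g, hg, hge, hg0, hgr⟩ := ker_exists hδ
  have hcδ : δ / 2 < δ := by linarith
  obtain ⟨A, hA, hdec⟩ := Fk_decay hcδ hδ (K + 2) hg
  have hpi := Real.pi_pos
  refine ⟨1 + A * Real.pi, by nlinarith [mul_pos hA hpi], fun H hH => ⟨wH g H, ?_⟩⟩
  have hH0 : 0 ≤ H := by linarith
  have hAC : A * Real.pi ≤ 1 + A * Real.pi := by linarith
  -- the integral over the line
  have hline : ∀ z : ℂ, Integrable (fun X : ℝ => Fk δ g (z - X)) ∧ ∫ X : ℝ, Fk δ g (z - X) = 1 := by
    intro z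
    have e : ∀ X : ℝ, Fk δ g (z - X) = Fk δ g (((z.re - X : ℝ) : ℂ) + z.im * I) := by
      intro X
      congr 1
      conv_lhs => rw [← Complex.re_add_im z]
      push_cast
      ring
    constructor
    · refine ((Fk_int hcδ hδ hg z.im).comp_sub_left z.re).congr (Eventually.of_forall fun X => ?_)
      simp only
      rw [e]
    · simp only [e]
      rw [integral_sub_left_eq_self (fun X : ℝ => Fk δ g ((X : ℂ) + z.im * I)) volume z.re,
        Fk_inv hcδ hδ hg, hg0]
      push_cast
      have : (Real.pi : ℂ) ≠ 0 := by exact_mod_cast hpi.ne'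
      field_simp
  have hsplit : ∀ z : ℂ, om (wH g H) z - 1 = -∫ X in (Set.Ioc (-H) H)ᶜ, Fk δ g (z - X) := by
    intro z
    have h1 := integral_add_compl (s := Set.Ioc (-H) H) measurableSet_Ioc (hline z).1
    rw [(hline z).2] at h1
    rw [om_wH hcδ hδ hg, intervalIntegral.integral_of_le (by linarith : -H ≤ H), ← h1]
    ring
  have hbound : ∀ (S : Set ℝ) (z : ℂ) (d : ℝ), MeasurableSet S → 0 ≤ d →
      (∀ X ∈ S, d ≤ |z.re - X|) →
      ‖∫ X in S, Fk δ g (z - X)‖ ≤ (1 + A * Real.pi) * Real.exp (δ * |z.im|) / (1 + d) ^ K := by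
    intro S z d hS hd hX
    obtain ⟨B, hB⟩ : ∃ B, B = A * Real.exp (δ * |z.im|) / (1 + d) ^ K := ⟨_, rfl⟩
    have hB0 : 0 < B := by rw [hB]; positivity
    have h1 : ‖∫ X in S, Fk δ g (z - X)‖ ≤ ∫ X in S, B * (1 + (z.re - X) ^ 2)⁻¹ := by
      refine norm_integral_le_of_norm_le ((maj_int z.re).const_mul B).integrableOn ?_
      rw [ae_restrict_iff' hS]
      refine Eventually.of_forall fun X hXS => ?_
      rw [hB]
      exact maj hA hdec z X d hd (hX X hXS)
    have h2 : ∫ X in S, B * (1 + (z.re - X) ^ 2)⁻¹ ≤ ∫ X : ℝ, B * (1 + (z.re - X) ^ 2)⁻¹ :=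
      setIntegral_le_integral ((maj_int z.re).const_mul B)
        (Eventually.of_forall fun X => by
          show (0 : ℝ) ≤ B * (1 + (z.re - X) ^ 2)⁻¹
          positivity)
    have h2' : ∫ X : ℝ, B * (1 + (z.re - X) ^ 2)⁻¹ = B * Real.pi := by
      rw [integral_const_mul, maj_val]
    rw [h2'] at h2
    refine (h1.trans h2).trans ?_
    rw [hB, div_mul_eq_mul_div]
    refine div_le_div_of_nonneg_right ?_ (by positivity)
    have h3 := Real.exp_pos (δ * |z.im|)
    nlinarith
  constructor
  · -- Lipschitz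
    obtain ⟨Dg, hDg⟩ : ∃ Dg : ℝ, ∀ x y : ℝ, |g x - g y| ≤ Dg * |x - y| := by
      have hd : Continuous (deriv g) := hg.deriv.1.continuous
      have hcs : HasCompactSupport (deriv g) := by
        refine HasCompactSupport.of_support_subset_isCompact (isCompact_Icc (a := -δ) (b := δ)) ?_
        intro v hv
        by_contra hcon
        apply hv
        refine hg.deriv.2 v ?_
        by_contra h
        push Not at h
        have h2 := abs_le.1 h
        exact hcon ⟨by linarith [h2.1], by linarith [h2.2]⟩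
      obtain ⟨Dg, hDg⟩ := hcs.exists_bound_of_continuous hd
      refine ⟨Dg, fun x y => ?_⟩
      have := Convex.norm_image_sub_le_of_norm_deriv_le (f := g) (C := Dg) (s := Set.univ)
        (fun x _ => (hg.1.differentiable (by simp)) x) (fun x _ => hDg x) convex_univ
        (Set.mem_univ y) (Set.mem_univ x)
      rwa [Real.norm_eq_abs, Real.norm_eq_abs] at this
    obtain ⟨Bg, hBg⟩ : ∃ Bg : ℝ, ∀ x : ℝ, |g x| ≤ Bg := by
      have hcs : HasCompactSupport g := by
        refine HasCompactSupport.of_support_subset_isCompact (isCompact_Icc (a := -δ) (b := δ)) ?_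
        intro v hv
        by_contra hcon
        apply hv
        refine hg.2 v ?_
        by_contra h
        push Not at h
        have h2 := abs_le.1 h
        exact hcon ⟨by linarith [h2.1], by linarith [h2.2]⟩
      obtain ⟨Bg, hBg⟩ := hcs.exists_bound_of_continuous hg.1.continuous
      exact ⟨Bg, hBg⟩
    refine ⟨Bg * (2 * H ^ 2) + Dg * (2 * H), fun x y => ?_⟩
    unfold wH
    have e : g x * cH H x - g y * cH H y = g x * (cH H x - cH H y) + (g x - g y) * cH H y := by ring
    rw [e]
    refine (abs_add_le _ _).trans ?_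
    rw [abs_mul, abs_mul]
    have hBg0 : 0 ≤ Bg := (abs_nonneg _).trans (hBg 0)
    have h1 := mul_le_mul (hBg x) (cH_lip hH0 x y) (abs_nonneg _) hBg0
    have h2 := mul_le_mul (hDg x y) (cH_bd hH0 y) (abs_nonneg _) ((abs_nonneg _).trans (hDg x y))
    calc _ ≤ Bg * (2 * H ^ 2 * |x - y|) + Dg * |x - y| * (2 * H) := add_le_add h1 h2
      _ = _ := by ring
  · intro v
    unfold wH
    rw [hge, cH_even]
  · intro v hv
    unfold wH
    rw [hg.2 v (by linarith), zero_mul]
  · intro x
    choose r hr0 hr using hgr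
    have e : ∀ X : ℝ, Fk δ g ((x : ℂ) - X) = ((r (x - X) : ℝ) : ℂ) := by
      intro X
      rw [← Complex.ofReal_sub, hr]
    have h1 := hline (x : ℂ)
    simp only [e] at h1
    have hri : Integrable fun X : ℝ => r (x - X) := by
      have := h1.1.re
      simpa using this
    have h2 : ∫ X : ℝ, r (x - X) = 1 := by
      have h3 := h1.2
      rw [integral_complex_ofReal] at h3
      exact_mod_cast h3
    have h3 : om (wH g H) x = ((∫ X in (-H)..H, r (x - X) : ℝ) : ℂ) := by
      rw [om_wH hcδ hδ hg]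
      simp only [e]
      rw [intervalIntegral.integral_ofReal]
    rw [h3, Complex.ofReal_im, Complex.ofReal_re]
    refine ⟨rfl, intervalIntegral.integral_nonneg (by linarith) fun X _ => hr0 _, ?_⟩
    rw [intervalIntegral.integral_of_le (by linarith : -H ≤ H), ← h2]
    exact setIntegral_le_integral hri (Eventually.of_forall fun X => hr0 _)
  · intro z hz
    rw [hsplit, norm_neg]
    refine hbound _ z (H - |z.re|) measurableSet_Ioc.compl (by linarith) fun X hX => ?_
    have h1 : H ≤ |X| := by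
      by_contra h
      push Not at h
      have h2 := abs_lt.1 h
      exact hX ⟨h2.1, h2.2.le⟩
    have h2 := abs_sub_abs_le_abs_sub X z.re
    rw [abs_sub_comm] at h2
    linarith
  · intro z hz
    rw [om_wH hcδ hδ hg, intervalIntegral.integral_of_le (by linarith : -H ≤ H)]
    refine hbound _ z (|z.re| - H) measurableSet_Ioc (by linarith) fun X hX => ?_
    have h1 : |X| ≤ H := abs_le.2 ⟨hX.1.le, hX.2⟩
    have h2 := abs_sub_abs_le_abs_sub z.re X
    linarith

end

end Pool.Agent.Q247.UM
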