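import Pool.Agent.Q247.UM.Glf
import Pool.Agent.Q97.UM.Stm6

/-!
Project UM2 of helper97, job QLF: Gaussian smoothing of a Lipschitz function with compact support.
-/

set_option autoImplicit false

namespace Pool.Agent.Q247.UM

open Filter Topology MeasureTheory
open Pool.Agent.Q97.UM (QL qh I2 S_QLF)

theorem t_QLF : S_QLF := by
  intro δ w hδ _ hq he hs
  obtain ⟨D0, hq⟩ := hq
  exact qlf hδ hq he hs

end Pool.Agent.Q247.UM
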