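import Pool.Agent.Q62.UM.Stm1

/-!
# Project UM (helper62), job S7: the derivative of `xi` along the field
-/

set_option autoImplicit false

open Real Set MeasureTheory Topology Filter

namespace Pool.Agent.Q247.UM62

open Pool.Agent.Q62.UM

/-- one term -/
theorem term_le {s x s' δ C κ K Q : ℝ} (hs : 0 ≤ s) (hs2 : s ≤ 2) (hH : 0 < Hf x) (hκ : 0 ≤ κ)
    (hC : 0 ≤ C) (hδ : |δ| ≤ C * κ * √(√(Hf x))) (hs' : |s'| ≤ κ * √s)
    (hK : K = s / (s ^ 2 + Hf x)) (hKQ : K ≤ Q) (hQ : 1 ≤ Q) :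
    |dAh s x s' δ| ≤ κ * ((5 / 2 * C + 1) * √Q) := by
  have hD : 0 < s ^ 2 + Hf x := by positivity
  have hD2 : s ^ 2 + Hf x ≤ s ^ 2 + (1 + s) * Hf x := by nlinarith
  have hD2' : 0 < s ^ 2 + (1 + s) * Hf x := lt_of_lt_of_le hD hD2
  have hK0 : 0 ≤ K := by rw [hK]; positivity
  have hQ1 : 1 ≤ √Q := by
    rw [← sqrt_one]
    exact sqrt_le_sqrt hQ
  have hKQ' : √K ≤ √Q := sqrt_le_sqrt hKQ
  obtain ⟨h, hh⟩ : ∃ h, h = √(√(Hf x)) := ⟨_, rfl⟩
  have hh0 : 0 ≤ h := by rw [hh]; exact sqrt_nonneg _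
  have hh2 : h ^ 2 = √(Hf x) := by rw [hh, sq_sqrt (sqrt_nonneg _)]
  have hHs : √(Hf x) ^ 2 = Hf x := sq_sqrt hH.le
  have hHn : 0 ≤ √(Hf x) := sqrt_nonneg _
  rw [← hh] at hδ
  -- first part
  have p1 : |s * (1 + s / 2) / (s ^ 2 + (1 + s) * Hf x) - 1 / 2| ≤ 2 * K + 1 / 2 := by
    have q1 : 0 ≤ s * (1 + s / 2) / (s ^ 2 + (1 + s) * Hf x) := by positivity
    have q2 : s * (1 + s / 2) / (s ^ 2 + (1 + s) * Hf x) ≤ 2 * K := by
      rw [hK, ← mul_div_assoc]
      refine div_le_div₀ (by positivity) ?_ hD hD2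
      nlinarith
    rw [abs_le]
    constructor <;> linarith
  have p2 : K * h ≤ 3 / 4 * √K := by
    apply le_of_sq_le_sq _ (by positivity)
    rw [mul_pow, mul_pow, sq_sqrt hK0, hh2]
    have q1 : K * √(Hf x) ≤ 1 / 2 := by
      rw [hK, div_mul_eq_mul_div, div_le_iff₀ hD]
      nlinarith [sq_nonneg (s - √(Hf x))]
    nlinarith
  have p3 : h ≤ 2 := by
    have q1 := sqrt_Hf_le x
    nlinarith
  have p4 : |(s * (1 + s / 2) / (s ^ 2 + (1 + s) * Hf x) - 1 / 2) * δ| ≤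
      C * κ * (3 / 2 * √K + 1) := by
    rw [abs_mul]
    calc |s * (1 + s / 2) / (s ^ 2 + (1 + s) * Hf x) - 1 / 2| * |δ| ≤
        (2 * K + 1 / 2) * (C * κ * h) :=
          mul_le_mul p1 hδ (abs_nonneg _) (by positivity)
      _ = C * κ * (2 * (K * h) + 1 / 2 * h) := by ring
      _ ≤ C * κ * (3 / 2 * √K + 1) := by
          refine mul_le_mul_of_nonneg_left ?_ (by positivity)
          linarith
  -- second part
  have p5 : |sin x / (s ^ 2 + (1 + s) * Hf x) * s'| ≤ κ * √K := by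
    rw [abs_mul, abs_div, abs_of_pos hD2']
    have q1 : |sin x| / (s ^ 2 + (1 + s) * Hf x) ≤ √(Hf x) / (s ^ 2 + Hf x) :=
      div_le_div₀ hHn (abs_sin_le x) hD hD2
    have q2 : √(Hf x) / (s ^ 2 + Hf x) * √s ≤ √K := by
      apply le_of_sq_le_sq _ (sqrt_nonneg _)
      rw [mul_pow, div_pow, sq_sqrt hK0, hHs, sq_sqrt hs, hK, div_mul_eq_mul_div,
        div_le_div_iff₀ (by positivity) hD]
      have : 0 ≤ s * (s ^ 2 + Hf x) := by positivity
      nlinarith [mul_nonneg this (sq_nonneg s)]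
    calc |sin x| / (s ^ 2 + (1 + s) * Hf x) * |s'| ≤
        √(Hf x) / (s ^ 2 + Hf x) * (κ * √s) :=
          mul_le_mul q1 hs' (abs_nonneg _) (by positivity)
      _ = κ * (√(Hf x) / (s ^ 2 + Hf x) * √s) := by ring
      _ ≤ κ * √K := mul_le_mul_of_nonneg_left q2 hκ
  unfold dAh
  refine (abs_sub _ _).trans ((add_le_add p4 p5).trans ?_)
  have r1 : C * κ * (3 / 2 * √K + 1) ≤ C * κ * (3 / 2 * √Q + √Q) := by
    refine mul_le_mul_of_nonneg_left ?_ (by positivity)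
    linarith
  have r2 : κ * √K ≤ κ * √Q := mul_le_mul_of_nonneg_left hKQ' hκ
  calc C * κ * (3 / 2 * √K + 1) + κ * √K ≤ C * κ * (3 / 2 * √Q + √Q) + κ * √Q :=
        add_le_add r1 r2
    _ = κ * ((5 / 2 * C + 1) * √Q) := by ring

theorem t_S7 : S_S7 := by
  intro d N dir x v w e m l κ J hx hb
  obtain ⟨M, hM⟩ : ∃ M : ℝ, M = MM d N := ⟨_, rfl⟩
  rw [← hM] at hb ⊢
  have hd0 : (0 : ℝ) ≤ d := Nat.cast_nonneg d
  have hN0 : (0 : ℝ) ≤ N := Nat.cast_nonneg N
  have hMe : M = ((N : ℝ) + 1) * (d + 1) := by rw [hM]; rfl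
  have hM1 : 1 ≤ M := by rw [hMe]; nlinarith
  have hκ := J.k0
  obtain ⟨Q, hQ⟩ : ∃ Q : ℝ, Q = KK dir x e := ⟨_, rfl⟩
  rw [← hQ]
  have hR0 : ∀ j, 0 ≤ √(e j) / (e j + Hf (x (dir j))) := fun j =>
    div_nonneg (sqrt_nonneg _) (add_nonneg (J.e0 j).le (hx _).le)
  have hP0 : ∀ k i, 0 ≤ √(Hf (x i - x k)) / (Hf (x i - x k) + Hf (x k)) := fun k i =>
    div_nonneg (sqrt_nonneg _) (add_nonneg (Hf_nonneg _) (hx _).le)
  have hP1 : ∀ k, 0 ≤ ∑ i ∈ Finset.univ.erase k,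
      √(Hf (x i - x k)) / (Hf (x i - x k) + Hf (x k)) := fun k =>
    Finset.sum_nonneg fun i _ => hP0 k i
  have hS1 : 0 ≤ ∑ j, √(e j) / (e j + Hf (x (dir j))) := Finset.sum_nonneg fun j _ => hR0 j
  have hS2 : 0 ≤ ∑ k, ∑ i ∈ Finset.univ.erase k,
      √(Hf (x i - x k)) / (Hf (x i - x k) + Hf (x k)) := Finset.sum_nonneg fun k _ => hP1 k
  have hQe : Q = 1 + ∑ j, √(e j) / (e j + Hf (x (dir j))) + ∑ k, ∑ i ∈ Finset.univ.erase k,
      √(Hf (x i - x k)) / (Hf (x i - x k) + Hf (x k)) := by rw [hQ]; rfl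
  have hQ1 : 1 ≤ Q := by rw [hQe]; linarith
  have hC0 : (0 : ℝ) ≤ 3 * M := by linarith
  have hroot : ∀ j, |dAh (√(e j)) (x (dir j)) (m j * √(e j) / 2)
      (bb dir x v e m - v (dir j))| ≤ κ * ((5 / 2 * (3 * M) + 1) * √Q) := by
    intro j
    have he := J.e0 j
    have he1 := J.e1 j
    have hs0 : 0 ≤ √(e j) := sqrt_nonneg _
    refine term_le hs0 ?_ (hx _) hκ hC0 (hb (dir j)) ?_ rfl ?_ hQ1
    · have : √(e j) ≤ 1 := by
        rw [← sqrt_one]
        exact sqrt_le_sqrt he1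
      linarith
    · have h3 := J.h3 j
      have q1 : √(e j) = √(√(e j)) * √(√(e j)) := (mul_self_sqrt hs0).symm
      have q2 : |m j * √(e j) / 2| = (|m j| * √(√(e j))) * √(√(e j)) / 2 := by
        rw [abs_div, abs_mul, abs_of_nonneg hs0, abs_two, mul_assoc, ← q1]
      rw [q2]
      have q3 := mul_le_mul_of_nonneg_right h3 (sqrt_nonneg (√(e j)))
      have q4 : 0 ≤ κ * √(√(e j)) := by positivity
      linarith
    · rw [sq_sqrt he.le]
      have := Finset.single_le_sum (f := fun j => √(e j) / (e j + Hf (x (dir j))))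
        (fun i _ => hR0 i) (Finset.mem_univ j)
      rw [hQe]
      linarith
  have hpair : ∀ k, ∀ i ∈ Finset.univ.erase k, |dAh (√(Hf (x i - x k))) (x k)
      (sin (x i - x k) * ((bb dir x v e m - v i) - (bb dir x v e m - v k)) / √(Hf (x i - x k)))
      (bb dir x v e m - v k)| ≤ κ * ((5 / 2 * (3 * M) + 1) * √Q) := by
    intro k i hi
    have hs0 : 0 ≤ √(Hf (x i - x k)) := sqrt_nonneg _
    refine term_le hs0 (sqrt_Hf_le _) (hx _) hκ hC0 (hb k) ?_ rfl ?_ hQ1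
    · have q0 : (bb dir x v e m - v i) - (bb dir x v e m - v k) = -(v i - v k) := by ring
      rw [q0]
      rcases hs0.eq_or_lt with h0 | h0
      · rw [← h0, div_zero, abs_zero]
        positivity
      · rw [abs_div, abs_mul, abs_neg, abs_of_pos h0, div_le_iff₀ h0]
        have q1 := J.h5 i k
        have q2 := abs_sin_le (x i - x k)
        calc |sin (x i - x k)| * |v i - v k| ≤
            √(Hf (x i - x k)) * (κ * √(√(Hf (x i - x k)))) :=
              mul_le_mul q2 q1 (abs_nonneg _) hs0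
          _ = κ * √(√(Hf (x i - x k))) * √(Hf (x i - x k)) := by ring
    · rw [sq_sqrt (Hf_nonneg _)]
      have q1 := Finset.single_le_sum
        (f := fun i => √(Hf (x i - x k)) / (Hf (x i - x k) + Hf (x k)))
        (fun i _ => hP0 k i) hi
      have q2 := Finset.single_le_sum (f := fun k => ∑ i ∈ Finset.univ.erase k,
        √(Hf (x i - x k)) / (Hf (x i - x k) + Hf (x k))) (fun k _ => hP1 k) (Finset.mem_univ k)
      rw [hQe]
      linarith
  obtain ⟨B, hB⟩ : ∃ B : ℝ, B = κ * ((5 / 2 * (3 * M) + 1) * √Q) := ⟨_, rfl⟩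
  rw [← hB] at hroot
  simp only [← hB] at hpair
  have hB0 : 0 ≤ B := by rw [hB]; positivity
  have habs : |dxi dir x (fun k => bb dir x v e m - v k) e m| ≤ (N + d ^ 2) * B := by
    unfold dxi
    refine (abs_add_le _ _).trans ?_
    have q1 : |∑ j, dAh (√(e j)) (x (dir j)) (m j * √(e j) / 2)
        (bb dir x v e m - v (dir j))| ≤ N * B := by
      refine (Finset.abs_sum_le_sum_abs _ _).trans ((Finset.sum_le_sum fun j _ => hroot j).trans ?_)
      rw [Finset.sum_const, nsmul_eq_mul, Finset.card_univ, Fintype.card_fin]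
    have q2 : |∑ k, ∑ i ∈ Finset.univ.erase k, dAh (√(Hf (x i - x k))) (x k)
        (sin (x i - x k) * ((bb dir x v e m - v i) - (bb dir x v e m - v k)) /
          √(Hf (x i - x k))) (bb dir x v e m - v k)| ≤ d ^ 2 * B := by
      refine (Finset.abs_sum_le_sum_abs _ _).trans ?_
      have q3 : ∀ k ∈ (Finset.univ : Finset (Fin d)),
          |∑ i ∈ Finset.univ.erase k, dAh (√(Hf (x i - x k))) (x k)
            (sin (x i - x k) * ((bb dir x v e m - v i) - (bb dir x v e m - v k)) /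
            √(Hf (x i - x k))) (bb dir x v e m - v k)| ≤ d * B := by
        intro k _
        refine (Finset.abs_sum_le_sum_abs _ _).trans
          ((Finset.sum_le_sum fun i hi => hpair k i hi).trans ?_)
        rw [Finset.sum_const, nsmul_eq_mul]
        refine mul_le_mul_of_nonneg_right ?_ hB0
        have : (Finset.univ.erase k).card ≤ d := by
          refine (Finset.card_le_card (Finset.erase_subset _ _)).trans ?_
          rw [Finset.card_univ, Fintype.card_fin]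
        exact_mod_cast this
      refine (Finset.sum_le_sum q3).trans ?_
      rw [Finset.sum_const, nsmul_eq_mul, Finset.card_univ, Fintype.card_fin]
      apply le_of_eq
      ring
    refine (add_le_add q1 q2).trans (le_of_eq ?_)
    ring
  have hQs : √Q ^ 2 = Q := sq_sqrt (by linarith)
  have hfin : (N + d ^ 2) * B ≤ 10 * M ^ 3 * κ * √Q := by
    rw [hB]
    have q1 : (N : ℝ) + d ^ 2 ≤ M ^ 2 := by
      rw [hMe]
      have e1 : (((N : ℝ) + 1) * (d + 1)) ^ 2 = (N ^ 2 + 2 * N + 1) * (d ^ 2 + 2 * d + 1) := by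
        ring
      rw [e1]
      have e2 : (0 : ℝ) ≤ (N ^ 2 + 2 * N) * (d ^ 2 + 2 * d) := by positivity
      nlinarith [mul_nonneg hN0 hN0]
    have q2 : 5 / 2 * (3 * M) + 1 ≤ 10 * M := by linarith
    calc ((N : ℝ) + d ^ 2) * (κ * ((5 / 2 * (3 * M) + 1) * √Q)) ≤
        M ^ 2 * (κ * ((10 * M) * √Q)) := by
          gcongr
      _ = 10 * M ^ 3 * κ * √Q := by ring
  calc dxi dir x (fun k => bb dir x v e m - v k) e m ^ 2
      = |dxi dir x (fun k => bb dir x v e m - v k) e m| ^ 2 := (sq_abs _).symm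
    _ ≤ (10 * M ^ 3 * κ * √Q) ^ 2 := pow_le_pow_left₀ (abs_nonneg _) (habs.trans hfin) 2
    _ = (10 * M ^ 3 * κ) ^ 2 * Q := by rw [mul_pow, hQs]

end Pool.Agent.Q247.UM62
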