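import Pool.Agent.Q62.UM.Stm1

/-!
# Project UM (helper62), job SM: regularity of the fields
-/

set_option autoImplicit false

open Real Set MeasureTheory Topology Filter
open scoped ContDiff

namespace Pool.Agent.Q247.UM62

open Pool.Agent.Q62.UM

/-- composition with the real part -/
theorem comp_re {E : Type*} [NormedAddCommGroup E] [NormedSpace ℝ E] {n : WithTop ℕ∞} {f : ℝ → E}
    {J : Set ℝ} (hf : ContDiffOn ℝ n f J) :
    ContDiffOn ℝ n (fun z : ℂ => f z.re) {z : ℂ | z.re ∈ J} :=
  hf.comp (Complex.reCLM.contDiff.contDiffOn) (fun _ hz => hz)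

theorem cd_im {n : WithTop ℕ∞} {S : Set ℂ} : ContDiffOn ℝ n (fun z : ℂ => z.im) S :=
  Complex.imCLM.contDiff.contDiffOn

theorem cd_ofReal {n : WithTop ℕ∞} {S : Set ℂ} {f : ℂ → ℝ} (hf : ContDiffOn ℝ n f S) :
    ContDiffOn ℝ n (fun z => (f z : ℂ)) S :=
  Complex.ofRealCLM.contDiff.comp_contDiffOn hf

theorem cd_Hf {n : WithTop ℕ∞} {S : Set ℂ} {f : ℂ → ℝ} (hf : ContDiffOn ℝ n f S) :
    ContDiffOn ℝ n (fun z => Hf (f z)) S := by
  unfold Hf
  exact contDiffOn_const.sub (contDiffOn_const.mul hf.cos)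

theorem Hf_pos_of {x : ℝ} (h : cos x ≠ 1) : 0 < Hf x := by
  have h1 := cos_le_one x
  have h2 : cos x < 1 := lt_of_le_of_ne h1 h
  unfold Hf
  linarith

theorem den_pos {d : ℕ} {x : Fin d → ℝ} (h : ∀ i k, i ≠ k → cos (x i - x k) ≠ 1) : 0 < den x := by
  unfold den
  have hP0 : 0 ≤ ∏ i, Hf (x i) := Finset.prod_nonneg fun i _ => Hf_nonneg _
  have hS0 : ∀ l ∈ (Finset.univ : Finset (Fin d)), 0 ≤ ∏ i ∈ Finset.univ.erase l, Hf (x i) :=
    fun l _ => Finset.prod_nonneg fun i _ => Hf_nonneg _
  by_cases hall : ∀ i, 0 < Hf (x i)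
  · have h1 : 0 < ∏ i, Hf (x i) := Finset.prod_pos fun i _ => hall i
    have h2 := Finset.sum_nonneg hS0
    linarith
  · push Not at hall
    obtain ⟨k, hk⟩ := hall
    have hk0 : Hf (x k) = 0 := le_antisymm hk (Hf_nonneg _)
    have hck : cos (x k) = 1 := by
      unfold Hf at hk0
      linarith
    have hsk : sin (x k) = 0 := by
      have := sin_sq_add_cos_sq (x k)
      rw [hck] at this
      nlinarith
    have h1 : 0 < ∏ i ∈ Finset.univ.erase k, Hf (x i) := by
      refine Finset.prod_pos fun i hi => Hf_pos_of ?_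
      intro hc
      have hik : i ≠ k := (Finset.mem_erase.1 hi).1
      apply h i k hik
      rw [cos_sub, hc, hck, hsk]
      ring
    have h2 := Finset.single_le_sum hS0 (Finset.mem_univ k)
    linarith

theorem Ah_cd {S : Set ℂ} {s x : ℂ → ℝ} (hs : ContDiffOn ℝ 1 s S) (hx : ContDiffOn ℝ 1 x S)
    (h : ∀ z ∈ S, 0 < s z) : ContDiffOn ℝ 1 (fun z => Ah (s z) (x z)) S := by
  unfold Ah
  refine ContDiffOn.arctan ?_
  refine hx.sin.div ((contDiffOn_const.add hs).sub hx.cos) fun z hz => ?_
  have := h z hz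
  have := cos_le_one (x z)
  intro h0
  linarith

theorem t_SM : S_SM := by
  intro g J hJ hg
  obtain ⟨S, hS⟩ : ∃ S : Set ℂ, S = {z : ℂ | z.re ∈ J} := ⟨_, rfl⟩
  rw [← hS]
  have hmem : ∀ z ∈ S, z.re ∈ J := fun z hz => by rw [hS] at hz; exact hz
  have hX : ∀ k, ContDiffOn ℝ 1 (fun z => g.X z k) S := by
    intro k
    unfold Cfg.X
    rw [hS]
    exact cd_im.sub (comp_re ((hg.y k).of_le (by norm_num)))
  have hv : ∀ k, ContDiffOn ℝ 1 (fun z : ℂ => g.v z.re k) S := by
    intro k
    rw [hS]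
    exact comp_re ((hg.y k).deriv_of_isOpen hJ (by norm_num))
  have he : ∀ j, ContDiffOn ℝ 1 (fun z : ℂ => g.e z.re j) S := by
    intro j
    rw [hS]
    exact comp_re ((hg.η j).of_le (by norm_num))
  have he0 : ∀ j, ∀ z ∈ S, 0 < g.e z.re j := fun j z hz => hg.η0 j _ (hmem z hz)
  have hm : ∀ j, ContDiffOn ℝ 1 (fun z : ℂ => g.m z.re j) S := by
    intro j
    rw [hS]
    unfold Cfg.m
    exact (comp_re ((hg.η j).deriv_of_isOpen hJ (by norm_num))).div
      (comp_re ((hg.η j).of_le (by norm_num))) fun z hz => (hg.η0 j _ hz).ne'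
  have hH : ∀ k, ContDiffOn ℝ 1 (fun z => Hf (g.X z k)) S := fun k => cd_Hf (hX k)
  have hne : ∀ z ∈ S, ∀ i k, i ≠ k → cos (g.X z i - g.X z k) ≠ 1 := by
    intro z hz i k hik
    have h1 : g.X z i - g.X z k = g.y k z.re - g.y i z.re := by
      unfold Cfg.X
      ring
    rw [h1]
    exact hg.ne k i hik.symm _ (hmem z hz)
  have hden0 : ∀ z ∈ S, 0 < den (g.X z) := fun z hz => den_pos (hne z hz)
  have hden : ContDiffOn ℝ 1 (fun z => den (g.X z)) S := by
    unfold den
    refine ContDiffOn.add (contDiffOn_prod fun i _ => hH i) ?_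
    exact ContDiffOn.sum fun l _ => contDiffOn_prod fun i _ => hH i
  have hlam : ∀ k, ContDiffOn ℝ 1 (fun z => lam (g.X z) k) S := by
    intro k
    unfold lam
    exact (contDiffOn_prod fun i _ => hH i).div hden fun z hz => (hden0 z hz).ne'
  have hLam : ContDiffOn ℝ 1 (fun z => Lam (g.X z)) S := by
    unfold Lam
    exact ContDiffOn.sum fun k _ => (hlam k).mul (hX k).sin
  have haa : ∀ j, ContDiffOn ℝ 1 (fun z => aa g.dir (g.X z) (g.e z.re) j) S := by
    intro j
    unfold aa
    refine (he j).div (((he j).pow 2).add (hH (g.dir j))) fun z hz => ?_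
    have h1 := he0 j z hz
    have h2 := Hf_nonneg (g.X z (g.dir j))
    positivity
  have hmb : ContDiffOn ℝ 1 (fun z => mb g.dir (g.X z) (g.e z.re) (g.m z.re)) S := by
    unfold mb
    refine (ContDiffOn.sum fun j _ => (haa j).mul (hm j)).div
      (contDiffOn_const.add (ContDiffOn.sum fun j _ => haa j)) fun z hz => ?_
    have h1 : 0 ≤ ∑ j, aa g.dir (g.X z) (g.e z.re) j :=
      Finset.sum_nonneg fun j _ => aa_nonneg (fun j => he0 j z hz) j
    positivity
  refine ⟨?_, ?_, ?_, ?_, ?_, ?_, ?_⟩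
  · unfold Cfg.b bb
    exact (ContDiffOn.sum fun k _ => (hlam k).mul (hv k)).add (hmb.mul hLam)
  · unfold Cfg.ξ xi
    refine ContDiffOn.add ?_ ?_
    · refine ContDiffOn.sum fun j _ => ?_
      refine Ah_cd ((he j).sqrt fun z hz => (he0 j z hz).ne') (hX _) fun z hz => ?_
      exact sqrt_pos.2 (he0 j z hz)
    · refine ContDiffOn.sum fun k _ => ContDiffOn.sum fun i hi => ?_
      have hik : i ≠ k := (Finset.mem_erase.1 hi).1
      have h1 : ∀ z ∈ S, 0 < Hf (g.X z i - g.X z k) := fun z hz => Hf_pos_of (hne z hz i k hik)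
      refine Ah_cd ((cd_Hf ((hX i).sub (hX k))).sqrt fun z hz => (h1 z hz).ne') (hX _)
        fun z hz => ?_
      exact sqrt_pos.2 (h1 z hz)
  · unfold Cfg.F
    have h1 : ContDiffOn ℝ 1 (fun z : ℂ => Complex.exp (z.im * Complex.I)) S :=
      ((cd_ofReal cd_im).mul contDiffOn_const).cexp
    refine ContDiffOn.mul (ContDiffOn.mul ?_ ?_) ?_
    · rw [hS]
      exact comp_re (hg.c.of_le (by norm_num))
    · exact (contDiffOn_const.mul ((cd_ofReal cd_im).mul contDiffOn_const)).cexp
    · refine contDiffOn_prod fun j _ => h1.sub ?_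
      unfold Cfg.root
      refine ContDiffOn.mul (cd_ofReal ?_) ?_
      · have h2 : ContDiffOn ℝ 1 (fun z : ℂ => g.s j * g.η j z.re) S := contDiffOn_const.mul (he j)
        refine (contDiffOn_const.sub h2).div (contDiffOn_const.add h2) fun z hz => ?_
        have h3 := hg.η0 j _ (hmem z hz)
        have h4 := hg.η1 j _ (hmem z hz)
        rcases hg.s j with h | h <;> rw [h] <;> intro h0 <;> linarith
      · have h3 : ContDiffOn ℝ 1 (fun z : ℂ => g.y (g.dir j) z.re) S := by
          rw [hS]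
          exact comp_re ((hg.y (g.dir j)).of_le (by norm_num))
        exact ((cd_ofReal h3).mul contDiffOn_const).cexp
  · intro z hz
    unfold Cfg.F
    refine mul_ne_zero (mul_ne_zero (hg.c0 _ hz) (Complex.exp_ne_zero _)) ?_
    refine Finset.prod_ne_zero_iff.2 fun j _ => ?_
    intro h0
    have h1 := sub_eq_zero.1 h0
    have h2 := congrArg norm h1
    rw [Complex.norm_exp_ofReal_mul_I] at h2
    unfold Cfg.root at h2
    rw [norm_mul, Complex.norm_exp_ofReal_mul_I, mul_one, Complex.norm_real, Real.norm_eq_abs]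
      at h2
    have h3 := hg.η0 j _ hz
    have h4 := hg.η1 j _ hz
    rcases hg.s j with h | h
    · rw [h, one_mul, abs_of_pos (div_pos (by linarith) (by linarith)), eq_div_iff (by linarith)]
        at h2
      linarith
    · have e1 : 1 - (-1 : ℝ) * g.η j z.re = 1 + g.η j z.re := by ring
      have e2 : 1 + (-1 : ℝ) * g.η j z.re = 1 - g.η j z.re := by ring
      rw [h, e1, e2, abs_of_pos (div_pos (by linarith) (by linarith)), eq_div_iff (by linarith)]
        at h2
      linarith
  · intro z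
    have hre : (z + 2 * π * Complex.I).re = z.re := by simp
    have him : (z + 2 * π * Complex.I).im = z.im + 2 * π := by simp
    have hXp : g.X (z + 2 * π * Complex.I) = fun k => g.X z k + 2 * π := by
      funext k
      unfold Cfg.X
      rw [hre, him]
      ring
    unfold Cfg.b
    rw [hXp, hre]
    unfold bb mb Lam lam den aa Hf
    simp only [cos_add_two_pi, sin_add_two_pi]
  · intro z
    have hre : (z + 2 * π * Complex.I).re = z.re := by simp
    have him : (z + 2 * π * Complex.I).im = z.im + 2 * π := by simp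
    have hXp : g.X (z + 2 * π * Complex.I) = fun k => g.X z k + 2 * π := by
      funext k
      unfold Cfg.X
      rw [hre, him]
      ring
    unfold Cfg.ξ
    rw [hXp, hre]
    unfold xi Ah
    simp only [cos_add_two_pi, sin_add_two_pi, add_sub_add_right_eq_sub]
  · intro z
    have hre : (z + 2 * π * Complex.I).re = z.re := by simp
    have him : (z + 2 * π * Complex.I).im = z.im + 2 * π := by simp
    unfold Cfg.F
    rw [hre, him]
    have e1 : Complex.exp ((((z.im + 2 * π : ℝ)) : ℂ) * Complex.I) =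
        Complex.exp (z.im * Complex.I) := by
      have : (((z.im + 2 * π : ℝ)) : ℂ) * Complex.I = z.im * Complex.I + 2 * π * Complex.I := by
        push_cast
        ring
      rw [this, Complex.exp_add, Complex.exp_two_pi_mul_I, mul_one]
    have e2 : Complex.exp (g.q * ((((z.im + 2 * π : ℝ)) : ℂ) * Complex.I)) =
        Complex.exp (g.q * (z.im * Complex.I)) := by
      have : (g.q : ℂ) * ((((z.im + 2 * π : ℝ)) : ℂ) * Complex.I) =
          g.q * (z.im * Complex.I) + g.q * (2 * π * Complex.I) := by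
        push_cast
        ring
      rw [this, Complex.exp_add, Complex.exp_int_mul_two_pi_mul_I, mul_one]
    rw [e1, e2]

end Pool.Agent.Q247.UM62
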