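import Pool.Agent.Q247.UM.THP

set_option autoImplicit false

/-! # Project UM5 (helper97), job THD: the derivative at the zeros -/

namespace Pool.Agent.Q247.UM

open Filter Topology MeasureTheory Complex
open Pool.Agent.Q97.UM

/-- one term of `SS` -/
lemma SS_term {δ T t : ℝ} (hδ : 0 ≤ δ) (hT : 1 ≤ T) {s : ℂ} (h : Real.log T * |s.im - t| ≤ 1) :
    (1 : ℝ) ≤ 4 * (Real.exp (2 * δ * (Real.log T * |s.re - 1 / 2|)) /
      (1 + Real.log T * |s.im - t|) ^ 2) := by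
  have hL : 0 ≤ Real.log T := Real.log_nonneg hT
  have h0 : 0 ≤ Real.log T * |s.im - t| := mul_nonneg hL (abs_nonneg _)
  have h1 : (1 : ℝ) ≤ Real.exp (2 * δ * (Real.log T * |s.re - 1 / 2|)) :=
    Real.one_le_exp (by positivity)
  have h2 : (1 + Real.log T * |s.im - t|) ^ 2 ≤ 4 := by nlinarith
  rw [← mul_div_assoc, le_div_iff₀ (by positivity)]
  linarith

/-- the sum over the other zeros at an isolated zero -/
lemma iso_sum {δ d T : ℝ} (hδ : 0 ≤ δ) (hd : 0 < d) (hT : 1 < T) {ρ : ℂ}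
    (hiso : ∀ s ∈ ZD T, s ≠ ρ → d / Real.log T ≤ ‖ρ - s‖) :
    ∑ s ∈ (ZD T).erase ρ, (mz s : ℝ) * max 0 (Real.log (1 / (Real.log T * ‖s - ρ‖))) ≤
      4 * max 0 (Real.log (1 / d)) * SS δ T ρ.im := by
  classical
  have hL : 0 < Real.log T := Real.log_pos hT
  have h1 : ∀ s ∈ (ZD T).erase ρ, (mz s : ℝ) * max 0 (Real.log (1 / (Real.log T * ‖s - ρ‖))) ≤
      4 * max 0 (Real.log (1 / d)) * ((mz s : ℝ) *
        (Real.exp (2 * δ * (Real.log T * |s.re - 1 / 2|)) /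
          (1 + Real.log T * |s.im - ρ.im|) ^ 2)) := by
    intro s hs
    obtain ⟨hne, hs⟩ := Finset.mem_erase.1 hs
    have h2 := hiso s hs hne
    rw [norm_sub_rev] at h2
    have h3 : d ≤ Real.log T * ‖s - ρ‖ := by
      rw [div_le_iff₀ hL] at h2
      linarith
    have hpos : 0 < Real.log T * ‖s - ρ‖ := hd.trans_le h3
    set E := Real.exp (2 * δ * (Real.log T * |s.re - 1 / 2|)) /
          (1 + Real.log T * |s.im - ρ.im|) ^ 2 with hE
    have hE0 : 0 ≤ E := by positivity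
    have hm0 : (0 : ℝ) ≤ mz s := Nat.cast_nonneg _
    have hld : 0 ≤ max 0 (Real.log (1 / d)) := le_max_left _ _
    rcases le_or_gt 1 (Real.log T * ‖s - ρ‖) with h4 | h4
    · have h5 : Real.log (1 / (Real.log T * ‖s - ρ‖)) ≤ 0 := by
        refine Real.log_nonpos (by positivity) ?_
        rw [div_le_one hpos]
        exact h4
      rw [max_eq_left h5, mul_zero]
      positivity
    · have h5 : Real.log T * |s.im - ρ.im| ≤ 1 := by
        have h6 := Complex.abs_im_le_norm (s - ρ)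
        rw [Complex.sub_im] at h6
        exact (mul_le_mul_of_nonneg_left h6 hL.le).trans h4.le
      have h6 := SS_term (s := s) hδ hT.le h5
      have h7 : Real.log (1 / (Real.log T * ‖s - ρ‖)) ≤ Real.log (1 / d) :=
        Real.log_le_log (by positivity) (one_div_le_one_div_of_le hd h3)
      have h8 : max 0 (Real.log (1 / (Real.log T * ‖s - ρ‖))) ≤ max 0 (Real.log (1 / d)) :=
        max_le_max le_rfl h7
      calc (mz s : ℝ) * max 0 (Real.log (1 / (Real.log T * ‖s - ρ‖)))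
          ≤ (mz s : ℝ) * max 0 (Real.log (1 / d)) := mul_le_mul_of_nonneg_left h8 hm0
        _ ≤ (mz s : ℝ) * max 0 (Real.log (1 / d)) * (4 * E) :=
            le_mul_of_one_le_right (mul_nonneg hm0 hld) h6
        _ = 4 * max 0 (Real.log (1 / d)) * ((mz s : ℝ) * E) := by ring
  refine (Finset.sum_le_sum h1).trans ?_
  rw [← Finset.mul_sum]
  refine mul_le_mul_of_nonneg_left ?_ (mul_nonneg (by norm_num) (le_max_left _ _))
  unfold SS
  refine Finset.sum_le_sum_of_subset_of_nonneg (Finset.erase_subset _ _) fun s _ _ => ?_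
  positivity

/-- sums over sets of simple zeros -/
lemma sum_simple {T : ℝ} (A : Finset ℂ) (hA : A ⊆ H370.Zf riemannZeta T (2 * T))
    (hm : ∀ s ∈ A, mz s = 1) (f g : ℂ → ℝ) (hfg : ∀ s ∈ A, f s ≤ g s) (hg : ∀ s, 0 ≤ g s) :
    ∑ s ∈ A, f s ≤ ∑ s ∈ H370.Zf riemannZeta T (2 * T), (mz s : ℝ) * g s := by
  calc ∑ s ∈ A, f s ≤ ∑ s ∈ A, (mz s : ℝ) * g s := by
        refine Finset.sum_le_sum fun s hs => ?_
        rw [hm s hs, Nat.cast_one, one_mul]
        exact hfg s hs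
    _ ≤ _ := Finset.sum_le_sum_of_subset_of_nonneg hA fun s _ _ =>
        mul_nonneg (Nat.cast_nonneg _) (hg s)

theorem t_THD : J_THD := by
  classical
  intro hKB hDD hST hDS hEU hPM hSA hex hTail m
  obtain ⟨ψ₁, k₀, hK⟩ := hex
  obtain ⟨θ₀, c, C₀, hθ0, hθ1, hc, hC0, hT⟩ := hTail
  obtain ⟨-, -, -, ⟨CL, hCL0, hCL⟩, -⟩ := hKB ψ₁ k₀ hK
  obtain ⟨CE, hCE0, hCE⟩ := eul_alp hEU hK
  obtain ⟨θ₁, hθ₁0, hθ₁1, hPM⟩ := hPM
  obtain ⟨θ₂, hθ₂0, hθ₂1, hSA⟩ := hSA 1 one_pos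
  have hm0 : (0 : ℝ) ≤ m := Nat.cast_nonneg m
  refine ⟨min (min (θ₀ / 2) (1 / 16)) (min θ₁ θ₂),
    min (min (c / (16 * (m + 2))) (θ₁ / (m + 1))) (1 / 8),
    by positivity, by positivity, fun δ d hδ hδ0 hd => ?_⟩
  have d1 : δ ≤ c / (16 * (m + 2)) := hδ0.trans ((min_le_left _ _).trans (min_le_left _ _))
  have d2 : δ ≤ θ₁ / (m + 1) := hδ0.trans ((min_le_left _ _).trans (min_le_right _ _))
  have d3 : δ ≤ 1 / 8 := hδ0.trans (min_le_right _ _)
  have d1' : 16 * δ * (((m + 1 : ℕ) : ℝ) + 1) ≤ c := by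
    rw [le_div_iff₀ (by positivity)] at d1
    push_cast
    linarith
  have d2' : (m : ℝ) * δ ≤ θ₁ := by
    rw [le_div_iff₀ (by positivity)] at d2
    nlinarith
  set θ := min (min (θ₀ / 2) (1 / 16)) (min θ₁ θ₂) with hθ
  have hθpos : 0 < θ := by positivity
  have hθle : θ ≤ θ₀ / 2 := (min_le_left _ _).trans (min_le_left _ _)
  have hθle2 : θ ≤ 1 / 16 := (min_le_left _ _).trans (min_le_right _ _)
  have hθle3 : θ ≤ θ₁ := (min_le_right _ _).trans (min_le_left _ _)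
  have hθle4 : θ ≤ θ₂ := (min_le_right _ _).trans (min_le_right _ _)
  obtain ⟨CD, hCD0, hCD⟩ := hDD ψ₁ k₀ hK δ hδ d3
  obtain ⟨CS, hCS0, hCS⟩ := hST θ₀ c C₀ hθ0 hθ1 hc hC0 hT (m + 1) δ hδ d1'
  have hSSB : SSB θ δ (m + 1) CS := by
    filter_upwards [hCS, eventually_ge_atTop 1] with T h h1 N hN b
    exact h N (hN.trans (Real.rpow_le_rpow_of_exponent_le h1 hθle)) b
  obtain ⟨CQ, hCQ0, hCQ⟩ := hDS θ δ m CS hθpos (by linarith) hδ hCS0 hSSB
  obtain ⟨CP, hCP0, hCP⟩ := hPM m CL δ (δ / 2) hCL0 (by positivity) (by linarith) d2'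
  set C1 := CD + CE with hC1
  set ld := 4 * max 0 (Real.log (1 / d)) with hld
  have hld0 : 0 ≤ ld := mul_nonneg (by norm_num) (le_max_left _ _)
  refine ⟨4 ^ m * ((C1 ^ m + 1) * 2 + CD ^ m * CQ + ld ^ m * CQ + CP), by positivity, ?_⟩
  filter_upwards [hCD, hCQ, hCP, hSA, big_T δ hδ] with T tD tQ tP tA tB N hN b
  obtain ⟨B1, B2, B3, B4, B5⟩ := tB
  have hT0 : 0 < T := by linarith
  have hLpos : 0 < Real.log T := Real.log_pos (by linarith)
  set X := ⌊T ^ δ⌋₊ with hX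
  set α := alp ψ₁ (δ * Real.log T) X with hα
  have hXle : (X : ℝ) ≤ T ^ δ := Nat.floor_le (by positivity)
  have hlogX : Real.log X ≤ δ * Real.log T := by
    have h1 := Real.log_le_log (by exact_mod_cast (by omega : 0 < X)) hXle
    rwa [Real.log_rpow hT0] at h1
  have iP := tP N X (hN.trans (Real.rpow_le_rpow_of_exponent_le (by linarith) hθle3)) B2 hXle b α
    (fun n hn => alp_ne hn) (fun n => alp_le hK.one hCL0 hCL B3 hlogX n)
  have iQ := tQ N hN b
  have iA := (tA N (hN.trans (Real.rpow_le_rpow_of_exponent_le (by linarith) hθle4)) b).2.2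
  have hN2 := N2_nonneg N b
  have iA' : ∑ s ∈ H370.Zf riemannZeta T (2 * T), (mz s : ℝ) * ‖dp N b s.im‖ ^ 2 ≤
      2 * Real.log T * (T * N2 N b) := by
    have h1 := (abs_le.1 iA).2
    have h2 : Real.log T / (2 * Real.pi) ≤ Real.log T := by
      refine div_le_self hLpos.le ?_
      have := Real.pi_gt_three
      linarith
    have h3 : 0 ≤ T * N2 N b := by positivity
    have h4 := mul_le_mul_of_nonneg_right h2 h3
    linarith
  have nn : ∀ t, 0 ≤ ‖dp N b t‖ ^ 2 := fun t => by positivity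
  have hZ : ∀ s ∈ H370.Zf riemannZeta T (2 * T), s ∈ ZD T ∧ T / 2 ≤ s.im ∧ s.im ≤ 6 * T := by
    intro s hs
    rw [H370.mem_Zf H370.good_zeta (by linarith)] at hs
    obtain ⟨h1, h2, h3, h4, h5⟩ := hs
    refine ⟨?_, by linarith, by linarith⟩
    rw [ZD, H370.mem_Zf H370.good_zeta (by linarith)]
    exact ⟨h1, h2, by linarith, by linarith, h5⟩
  -- the general estimate of the sums
  set G : ℂ → ℝ := fun s => 4 ^ m * ((C1 ^ m + 1) * ‖dp N b s.im‖ ^ 2 +
    CD ^ m * (SS δ T s.im ^ m * ‖dp N b s.im‖ ^ 2) +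
    ld ^ m * (SS δ T s.im ^ m * ‖dp N b s.im‖ ^ 2) +
    ‖dp X α s.im‖ ^ (2 * m) * ‖dp N b s.im‖ ^ 2) with hG
  have hG0 : ∀ s, 0 ≤ G s := by
    intro s
    have := SS_nonneg δ T s.im
    simp only [hG]
    positivity
  have hGsum : ∑ s ∈ H370.Zf riemannZeta T (2 * T), (mz s : ℝ) * G s ≤
      4 ^ m * ((C1 ^ m + 1) * 2 + CD ^ m * CQ + ld ^ m * CQ + CP) * Real.log T * (T * N2 N b) := by
    have e1 : ∑ s ∈ H370.Zf riemannZeta T (2 * T), (mz s : ℝ) * G s = 4 ^ m * ((C1 ^ m + 1) *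
        (∑ s ∈ H370.Zf riemannZeta T (2 * T), (mz s : ℝ) * ‖dp N b s.im‖ ^ 2) +
        CD ^ m * (∑ s ∈ H370.Zf riemannZeta T (2 * T), (mz s : ℝ) *
          (SS δ T s.im ^ m * ‖dp N b s.im‖ ^ 2)) +
        ld ^ m * (∑ s ∈ H370.Zf riemannZeta T (2 * T), (mz s : ℝ) *
          (SS δ T s.im ^ m * ‖dp N b s.im‖ ^ 2)) +
        ∑ s ∈ H370.Zf riemannZeta T (2 * T), (mz s : ℝ) *
          (‖dp X α s.im‖ ^ (2 * m) * ‖dp N b s.im‖ ^ 2)) := by
      simp only [hG, Finset.mul_sum, ← Finset.sum_add_distrib]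
      refine Finset.sum_congr rfl fun s _ => ?_
      ring
    rw [e1]
    have hC1m : (0 : ℝ) ≤ C1 ^ m + 1 := by positivity
    have hCDm : (0 : ℝ) ≤ CD ^ m := by positivity
    have hldm : (0 : ℝ) ≤ ld ^ m := pow_nonneg hld0 m
    calc _ ≤ 4 ^ m * ((C1 ^ m + 1) * (2 * Real.log T * (T * N2 N b)) +
          CD ^ m * (CQ * Real.log T * (T * N2 N b)) + ld ^ m * (CQ * Real.log T * (T * N2 N b)) +
          CP * Real.log T * (T * N2 N b)) := by
          gcongr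
      _ = _ := by ring
  -- from the linear bound to the bound of the powers
  have hpw : ∀ (s : ℂ) (x : ℝ), 0 ≤ x → x ≤ C1 + CD * SS δ T s.im + ld * SS δ T s.im +
      ‖dp X α s.im‖ → x ^ m * ‖dp N b s.im‖ ^ 2 ≤ G s := by
    intro s x hx0 hx
    have hS0 := SS_nonneg δ T s.im
    have hd0 := norm_nonneg (dp X α s.im)
    have h5 : x ^ m ≤ 4 ^ m * (C1 ^ m + (CD * SS δ T s.im) ^ m + (ld * SS δ T s.im) ^ m +
        ‖dp X α s.im‖ ^ m) := (pow_le_pow_left₀ hx0 hx m).trans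
        (pow4 m (by positivity) (by positivity) (by positivity) hd0)
    have h6 := pow_two_m m hd0
    have h7 : x ^ m ≤ 4 ^ m * ((C1 ^ m + 1) + CD ^ m * SS δ T s.im ^ m +
        ld ^ m * SS δ T s.im ^ m + ‖dp X α s.im‖ ^ (2 * m)) := by
      refine h5.trans (mul_le_mul_of_nonneg_left ?_ (by positivity))
      rw [mul_pow, mul_pow]
      linarith
    calc x ^ m * ‖dp N b s.im‖ ^ 2
        ≤ (4 ^ m * ((C1 ^ m + 1) + CD ^ m * SS δ T s.im ^ m +
        ld ^ m * SS δ T s.im ^ m + ‖dp X α s.im‖ ^ (2 * m))) * ‖dp N b s.im‖ ^ 2 :=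
          mul_le_mul_of_nonneg_right h7 (nn _)
      _ = G s := by simp only [hG]; ring
  constructor
  · refine (sum_simple (ZI d T) (Finset.filter_subset _ _)
      (fun s hs => (Finset.mem_filter.1 hs).2.2.1) _ G (fun s hs => ?_) hG0).trans hGsum
    obtain ⟨hs1, hs2, hs3, hs4⟩ := Finset.mem_filter.1 hs
    obtain ⟨z1, z2, z3⟩ := hZ s hs1
    obtain ⟨q1, q2⟩ := tD s z1 z2 z3 hs2 hs3
    have q1' : Real.log ‖deriv riemannZeta s‖ - Real.log (Real.log T) ≤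
        PP ψ₁ (δ * Real.log T) s.im + CD * (1 + SS δ T s.im) := by linarith
    obtain ⟨p1, p2⟩ := point (t := s.im) hT0 hCD0 hCE0 B5 hCE q1'
    have hi := iso_sum hδ.le hd (by linarith : 1 < T) hs4
    have p3 := p2 (ld * SS δ T s.im) (by linarith)
    have hS0 := SS_nonneg δ T s.im
    have hls : 0 ≤ ld * SS δ T s.im := mul_nonneg hld0 hS0
    refine hpw s _ (abs_nonneg _) (abs_le.2 ⟨?_, ?_⟩)
    · linarith
    · linarith
  · refine (sum_simple _ (Finset.filter_subset _ _)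
      (fun s hs => (Finset.mem_filter.1 hs).2.2) _ G (fun s hs => ?_) hG0).trans hGsum
    obtain ⟨hs1, hs2, hs3⟩ := Finset.mem_filter.1 hs
    obtain ⟨z1, z2, z3⟩ := hZ s hs1
    obtain ⟨q1, q2⟩ := tD s z1 z2 z3 hs2 hs3
    have q1' : Real.log ‖deriv riemannZeta s‖ - Real.log (Real.log T) ≤
        PP ψ₁ (δ * Real.log T) s.im + CD * (1 + SS δ T s.im) := by linarith
    obtain ⟨p1, p2⟩ := point (t := s.im) hT0 hCD0 hCE0 B5 hCE q1'
    have hS0 := SS_nonneg δ T s.im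
    have hls : 0 ≤ ld * SS δ T s.im := mul_nonneg hld0 hS0
    have hcs : 0 ≤ CD * SS δ T s.im := mul_nonneg hCD0 hS0
    have hn0 := norm_nonneg (dp X α s.im)
    refine hpw s _ (le_max_left _ _) (max_le (by positivity) ?_)
    linarith

end Pool.Agent.Q247.UM
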