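import Pool.Agent.Q247.UM.THPa

set_option autoImplicit false

/-! # Project UM5 (helper97), job THP: assembly of Theorem P -/

namespace Pool.Agent.Q247.UM

open Filter Topology MeasureTheory Complex
open Pool.Agent.Q97.UM

/-- facts on `T` for large `T` -/
lemma big_T (δ : ℝ) (hδ : 0 < δ) : ∀ᶠ T : ℝ in atTop, 32 ≤ T ∧ T ^ (δ / 2) ≤ (⌊T ^ δ⌋₊ : ℝ) ∧
    2 ≤ ⌊T ^ δ⌋₊ ∧ T ^ (1 / 16 : ℝ) ≤ (T / 2) ^ (1 / 4 : ℝ) ∧ 2 ≤ δ * Real.log T := by
  have h1 : Tendsto (fun T : ℝ => T ^ (δ / 2)) atTop atTop := tendsto_rpow_atTop (by positivity)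
  have h2 : Tendsto (fun T : ℝ => δ * Real.log T) atTop atTop :=
    Real.tendsto_log_atTop.const_mul_atTop hδ
  filter_upwards [h1.eventually_ge_atTop 2, h2.eventually_ge_atTop 2, eventually_ge_atTop 32]
    with T e1 e2 e3
  have hT0 : 0 < T := by linarith
  have h3 : T ^ (δ / 2) ≤ (⌊T ^ δ⌋₊ : ℝ) := by
    have h4 := Nat.lt_floor_add_one (T ^ δ)
    have h5 : T ^ δ = T ^ (δ / 2) * T ^ (δ / 2) := by
      rw [← Real.rpow_add hT0]; congr 1; ring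
    nlinarith
  refine ⟨e3, h3, ?_, ?_, e2⟩
  · have : (2 : ℝ) ≤ (⌊T ^ δ⌋₊ : ℝ) := e1.trans h3
    exact_mod_cast this
  · have h6 : T ^ (1 / 2 : ℝ) ≤ T / 2 := by
      rw [← Real.sqrt_eq_rpow]
      rw [Real.sqrt_le_left (by linarith)]
      nlinarith
    calc T ^ (1 / 16 : ℝ) ≤ T ^ (1 / 8 : ℝ) :=
          Real.rpow_le_rpow_of_exponent_le (by linarith) (by norm_num)
      _ = (T ^ (1 / 2 : ℝ)) ^ (1 / 4 : ℝ) := by
          rw [← Real.rpow_mul hT0.le]; norm_num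
      _ ≤ (T / 2) ^ (1 / 4 : ℝ) := Real.rpow_le_rpow (by positivity) h6 (by norm_num)

/-- the pointwise inequality -/
lemma point {ψ₁ : ℝ → ℝ} {δ T CD CE t l : ℝ} (hT : 0 < T) (hCD : 0 ≤ CD) (hCE0 : 0 ≤ CE)
    (hD2 : 2 ≤ δ * Real.log T)
    (hCE : ∀ D t : ℝ, 2 ≤ D →
      |EP ⌊Real.exp D⌋₊ t - PP ψ₁ D t - (dp ⌊Real.exp D⌋₊ (alp ψ₁ D ⌊Real.exp D⌋₊) t).re| ≤ CE)
    (h1 : l ≤ PP ψ₁ (δ * Real.log T) t + CD * (1 + SS δ T t)) :
    l - EP ⌊T ^ δ⌋₊ t ≤ (CD + CE) + CD * SS δ T t +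
        ‖dp ⌊T ^ δ⌋₊ (alp ψ₁ (δ * Real.log T) ⌊T ^ δ⌋₊) t‖ ∧
    ∀ S : ℝ, PP ψ₁ (δ * Real.log T) t - CD * (1 + SS δ T t) - S ≤ l →
    -((CD + CE) + CD * SS δ T t + S + ‖dp ⌊T ^ δ⌋₊ (alp ψ₁ (δ * Real.log T) ⌊T ^ δ⌋₊) t‖) ≤
      l - EP ⌊T ^ δ⌋₊ t := by
  have hexp : Real.exp (δ * Real.log T) = T ^ δ := by
    rw [Real.rpow_def_of_pos hT, mul_comm]
  have h2 := hCE (δ * Real.log T) t hD2
  rw [hexp] at h2
  have h3 := abs_le.1 h2
  have h4 := abs_le.1 (Complex.abs_re_le_norm (dp ⌊T ^ δ⌋₊ (alp ψ₁ (δ * Real.log T) ⌊T ^ δ⌋₊) t))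
  constructor
  · linarith [h3.1, h4.1]
  · intro S hS
    linarith [h3.2, h4.2]

lemma eul_alp {ψ₁ k₀ : ℝ → ℝ} (hEU : S_EUL) (hK : Ker ψ₁ k₀) : ∃ CE : ℝ, 0 ≤ CE ∧
    ∀ D t : ℝ, 2 ≤ D →
      |EP ⌊Real.exp D⌋₊ t - PP ψ₁ D t - (dp ⌊Real.exp D⌋₊ (alp ψ₁ D ⌊Real.exp D⌋₊) t).re| ≤ CE := by
  obtain ⟨CE, hCE0, hCE⟩ := hEU ψ₁ k₀ hK
  refine ⟨CE, hCE0, fun D t hD => ?_⟩
  have h := hCE D t hD
  have e : dp ⌊Real.exp D⌋₊ (alp ψ₁ D ⌊Real.exp D⌋₊) t = dp ⌊Real.exp D⌋₊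
      (fun n => open Classical in
        if n.Prime then ((1 - ψ₁ (Real.log n / D) : ℝ) : ℂ) else 0) t := by
    unfold dp
    refine Finset.sum_congr rfl fun n hn => ?_
    congr 1
    unfold alp
    beta_reduce
    by_cases hp : n.Prime
    · rw [if_pos ⟨hp, (Finset.mem_Icc.1 hn).2⟩, if_pos hp]
    · rw [if_neg (fun h => hp h.1), if_neg hp]
  rw [e]
  convert h using 6

theorem t_THP : J_THP := by
  intro hKB hDP hST hSN hEU hPM hMV hex hTail m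
  obtain ⟨ψ₁, k₀, hK⟩ := hex
  obtain ⟨θ₀, c, C₀, hθ0, hθ1, hc, hC0, hT⟩ := hTail
  obtain ⟨-, -, -, ⟨CL, hCL0, hCL⟩, -⟩ := hKB ψ₁ k₀ hK
  obtain ⟨CE, hCE0, hCE⟩ := eul_alp hEU hK
  have hm0 : (0 : ℝ) ≤ m := Nat.cast_nonneg m
  refine ⟨min (θ₀ / 2) (1 / 16), min (min (c / (16 * (m + 1))) (1 / (16 * (m + 1)))) (1 / 8),
    by positivity, by positivity, fun δ hδ hδ0 => ?_⟩
  have d1 : δ ≤ c / (16 * (m + 1)) := hδ0.trans ((min_le_left _ _).trans (min_le_left _ _))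
  have d2 : δ ≤ 1 / (16 * (m + 1)) := hδ0.trans ((min_le_left _ _).trans (min_le_right _ _))
  have d3 : δ ≤ 1 / 8 := hδ0.trans (min_le_right _ _)
  have d1' : 16 * δ * (m + 1) ≤ c := by
    rw [le_div_iff₀ (by positivity)] at d1
    linarith
  have d2' : ((m : ℝ) + 1) * δ ≤ 1 / 16 := by
    rw [le_div_iff₀ (by positivity)] at d2
    linarith
  set θ := min (θ₀ / 2) (1 / 16) with hθ
  have hθpos : 0 < θ := by positivity
  have hθle : θ ≤ θ₀ / 2 := min_le_left _ _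
  have hθle2 : θ ≤ 1 / 16 := min_le_right _ _
  obtain ⟨CD, hCD0, hCD⟩ := hDP ψ₁ k₀ hK δ hδ d3
  obtain ⟨CS, hCS0, hCS⟩ := hST θ₀ c C₀ hθ0 hθ1 hc hC0 hT m δ hδ d1'
  have hSSB : SSB θ δ m CS := by
    filter_upwards [hCS, eventually_ge_atTop 1] with T h h1 N hN b
    exact h N (hN.trans (Real.rpow_le_rpow_of_exponent_le h1 hθle)) b
  obtain ⟨CP, hCP0, hCP⟩ := hPM m CL δ (δ / 2) hCL0 (by positivity) (by linarith) d2'
  -- the singular sum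
  obtain ⟨CG, hCG0, hCG⟩ : ∃ C' : ℝ, 0 ≤ C' ∧ ∀ᶠ T : ℝ in atTop, ∀ N : ℕ, (N : ℝ) ≤ T ^ θ →
      ∀ b : ℕ → ℂ, IntervalIntegrable (fun t => SL T t ^ m * ‖dp N b t‖ ^ 2) volume (T / 2) (4 * T) ∧
      ∫ t in (T / 2)..(4 * T), SL T t ^ m * ‖dp N b t‖ ^ 2 ≤ C' * T * N2 N b := by
    rcases Nat.eq_zero_or_pos m with h0 | h0
    · refine ⟨7, by norm_num, ?_⟩
      filter_upwards [big_T δ hδ] with T hB N hN b
      subst h0
      simp only [pow_zero, one_mul]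
      refine ⟨((dp_cont N b).norm.pow 2).intervalIntegrable _ _, ?_⟩
      refine mvl4 hMV hB.1 N ?_ b
      refine hN.trans (le_trans ?_ hB.2.2.2.1)
      exact Real.rpow_le_rpow_of_exponent_le (by linarith [hB.1]) hθle2
    · exact hSN θ δ m CS hθpos (by linarith) hδ h0 hCS0 hSSB
  set C1 := CD + CE with hC1
  refine ⟨4 ^ m * ((C1 ^ m + 1) * 7 + CD ^ m * CS + CG + CP), by positivity, ?_⟩
  filter_upwards [hCD, hSSB, hCP, hCG, big_T δ hδ] with T tD tS tP tG tB N hN b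
  obtain ⟨B1, B2, B3, B4, B5⟩ := tB
  have hT0 : 0 < T := by linarith
  have hN16 : (N : ℝ) ≤ T ^ (1 / 16 : ℝ) :=
    hN.trans (Real.rpow_le_rpow_of_exponent_le (by linarith) hθle2)
  set X := ⌊T ^ δ⌋₊ with hX
  set α := alp ψ₁ (δ * Real.log T) X with hα
  have hXle : (X : ℝ) ≤ T ^ δ := Nat.floor_le (by positivity)
  have hlogX : Real.log X ≤ δ * Real.log T := by
    have h1 := Real.log_le_log (by exact_mod_cast (by omega : 0 < X)) hXle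
    rwa [Real.log_rpow hT0] at h1
  have iP := tP N X hN16 B2 hXle b α (fun n hn => alp_ne hn)
    (fun n => alp_le hK.one hCL0 hCL B3 hlogX n)
  obtain ⟨gI, iG⟩ := tG N hN b
  have iS := tS N hN b
  have iM := mvl4 hMV B1 N (hN16.trans B4) b
  have hN2 := N2_nonneg N b
  -- continuity
  have cB : Continuous (fun t => ‖dp N b t‖ ^ 2) := (dp_cont N b).norm.pow 2
  have cS : Continuous (fun t => SS δ T t ^ m * ‖dp N b t‖ ^ 2) :=
    ((SS_cont δ T (by linarith)).pow m).mul cB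
  have cP : Continuous (fun t => ‖dp X α t‖ ^ (2 * m) * ‖dp N b t‖ ^ 2) :=
    ((dp_cont X α).norm.pow (2 * m)).mul cB
  have nn : ∀ t, 0 ≤ ‖dp N b t‖ ^ 2 := fun t => by positivity
  have hle : T / 2 ≤ 4 * T := by linarith
  -- the bound
  have hpt : ∀ t, T / 2 ≤ t → t ≤ 4 * T → zt t ≠ 0 →
      |Real.log ‖zt t‖ - EP X t| ^ m * ‖dp N b t‖ ^ 2 ≤
      4 ^ m * ((C1 ^ m + 1) * ‖dp N b t‖ ^ 2 + CD ^ m * (SS δ T t ^ m * ‖dp N b t‖ ^ 2) +
        SL T t ^ m * ‖dp N b t‖ ^ 2 + ‖dp X α t‖ ^ (2 * m) * ‖dp N b t‖ ^ 2) := by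
    intro t ht1 ht2 hz
    obtain ⟨q1, q2⟩ := tD t (by linarith) (by linarith) hz
    obtain ⟨p1, p2⟩ := point (t := t) hT0 hCD0 hCE0 B5 hCE q1
    have p3 := p2 _ q2
    have hS0 := SS_nonneg δ T t
    have hL0 := SL_nonneg T t
    have hd0 := norm_nonneg (dp X α t)
    have habs : |Real.log ‖zt t‖ - EP X t| ≤ C1 + CD * SS δ T t + SL T t + ‖dp X α t‖ := by
      rw [abs_le]
      constructor
      · exact p3
      · linarith
    have h5 : |Real.log ‖zt t‖ - EP X t| ^ m ≤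
        4 ^ m * (C1 ^ m + (CD * SS δ T t) ^ m + SL T t ^ m + ‖dp X α t‖ ^ m) :=
      (pow_le_pow_left₀ (abs_nonneg _) habs m).trans
        (pow4 m (by positivity) (by positivity) hL0 hd0)
    have h6 := pow_two_m m hd0
    have h7 : |Real.log ‖zt t‖ - EP X t| ^ m ≤
        4 ^ m * ((C1 ^ m + 1) + CD ^ m * SS δ T t ^ m + SL T t ^ m + ‖dp X α t‖ ^ (2 * m)) := by
      refine h5.trans (mul_le_mul_of_nonneg_left ?_ (by positivity))
      rw [mul_pow]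
      linarith
    calc |Real.log ‖zt t‖ - EP X t| ^ m * ‖dp N b t‖ ^ 2
        ≤ (4 ^ m * ((C1 ^ m + 1) + CD ^ m * SS δ T t ^ m + SL T t ^ m +
            ‖dp X α t‖ ^ (2 * m))) * ‖dp N b t‖ ^ 2 := mul_le_mul_of_nonneg_right h7 (nn t)
      _ = _ := by ring
  have iiB : IntervalIntegrable (fun t => (C1 ^ m + 1) * ‖dp N b t‖ ^ 2) volume (T / 2) (4 * T) :=
    (cB.const_mul _).intervalIntegrable _ _
  have iiS : IntervalIntegrable (fun t => CD ^ m * (SS δ T t ^ m * ‖dp N b t‖ ^ 2)) volume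
      (T / 2) (4 * T) := (cS.const_mul _).intervalIntegrable _ _
  have iiP : IntervalIntegrable (fun t => ‖dp X α t‖ ^ (2 * m) * ‖dp N b t‖ ^ 2) volume
      (T / 2) (4 * T) := cP.intervalIntegrable _ _
  have iiA := (((iiB.add iiS).add gI).add iiP).const_mul (4 ^ m)
  have hmeas : Measurable (fun t => |Real.log ‖zt t‖ - EP X t| ^ m * ‖dp N b t‖ ^ 2) := by
    have h1 : Measurable (fun t => Real.log ‖zt t‖) :=
      Real.measurable_log.comp zt_cont.norm.measurable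
    exact (((h1.sub (EP_cont X).measurable).abs).pow_const m).mul cB.measurable
  have hae := ae_zt (by linarith : 16 ≤ T)
  have hI : IntervalIntegrable (fun t => |Real.log ‖zt t‖ - EP X t| ^ m * ‖dp N b t‖ ^ 2) volume
      (T / 2) (4 * T) := by
    refine iiA.mono_fun' hmeas.aestronglyMeasurable ?_
    rw [Set.uIoc_of_le hle]
    refine (ae_restrict_iff' measurableSet_Ioc).2 ?_
    filter_upwards [hae] with t ht hmem
    rw [Real.norm_of_nonneg (by positivity)]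
    exact hpt t hmem.1.le hmem.2 (ht hmem.1.le hmem.2)
  refine ⟨hI, ?_⟩
  have hmono := intervalIntegral.integral_mono_ae_restrict (μ := volume) hle hI iiA (by
    refine (ae_restrict_iff' measurableSet_Icc).2 ?_
    filter_upwards [hae] with t ht hmem
    exact hpt t hmem.1 hmem.2 (ht hmem.1 hmem.2))
  refine hmono.trans ?_
  have e1 : (∫ t in (T / 2)..(4 * T), 4 ^ m * ((C1 ^ m + 1) * ‖dp N b t‖ ^ 2 +
      CD ^ m * (SS δ T t ^ m * ‖dp N b t‖ ^ 2) + SL T t ^ m * ‖dp N b t‖ ^ 2 +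
      ‖dp X α t‖ ^ (2 * m) * ‖dp N b t‖ ^ 2)) =
      4 ^ m * ((C1 ^ m + 1) * (∫ t in (T / 2)..(4 * T), ‖dp N b t‖ ^ 2) +
        CD ^ m * (∫ t in (T / 2)..(4 * T), SS δ T t ^ m * ‖dp N b t‖ ^ 2) +
        (∫ t in (T / 2)..(4 * T), SL T t ^ m * ‖dp N b t‖ ^ 2) +
        ∫ t in (T / 2)..(4 * T), ‖dp X α t‖ ^ (2 * m) * ‖dp N b t‖ ^ 2) := by
    rw [intervalIntegral.integral_const_mul, intervalIntegral.integral_add ((iiB.add iiS).add gI) iiP,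
      intervalIntegral.integral_add (iiB.add iiS) gI, intervalIntegral.integral_add iiB iiS,
      intervalIntegral.integral_const_mul, intervalIntegral.integral_const_mul]
  rw [e1]
  have hS2 : ∫ t in (T / 2)..(4 * T), SS δ T t ^ m * ‖dp N b t‖ ^ 2 ≤ CS * T * N2 N b := by
    refine le_trans ?_ iS
    refine intervalIntegral.integral_mono_interval (by linarith) hle (by linarith) ?_
      (cS.intervalIntegrable _ _)
    exact Eventually.of_forall fun t => mul_nonneg (pow_nonneg (SS_nonneg δ T t) m) (nn t)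
  have h4m : (0 : ℝ) < 4 ^ m := by positivity
  calc 4 ^ m * ((C1 ^ m + 1) * (∫ t in (T / 2)..(4 * T), ‖dp N b t‖ ^ 2) +
        CD ^ m * (∫ t in (T / 2)..(4 * T), SS δ T t ^ m * ‖dp N b t‖ ^ 2) +
        (∫ t in (T / 2)..(4 * T), SL T t ^ m * ‖dp N b t‖ ^ 2) +
        ∫ t in (T / 2)..(4 * T), ‖dp X α t‖ ^ (2 * m) * ‖dp N b t‖ ^ 2)
      ≤ 4 ^ m * ((C1 ^ m + 1) * (7 * T * N2 N b) + CD ^ m * (CS * T * N2 N b) +
        CG * T * N2 N b + CP * T * N2 N b) := by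
        gcongr
    _ = 4 ^ m * ((C1 ^ m + 1) * 7 + CD ^ m * CS + CG + CP) * T * N2 N b := by ring

end Pool.Agent.Q247.UM
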