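import Pool.Agent.Q97.UM.Stm11
import Pool.Agent.H370R2.DirGood

set_option autoImplicit false

/-! # Project UM5 (helper97): auxiliary facts for the jobs THP and THD -/

namespace Pool.Agent.Q247.UM

open Filter Topology MeasureTheory Complex
open Pool.Agent.Q97.UM

lemma pow4 (m : ℕ) {a b c d : ℝ} (ha : 0 ≤ a) (hb : 0 ≤ b) (hc : 0 ≤ c) (hd : 0 ≤ d) :
    (a + b + c + d) ^ m ≤ 4 ^ m * (a ^ m + b ^ m + c ^ m + d ^ m) := by
  set M := max (max a b) (max c d) with hM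
  have h1 : a ≤ M := (le_max_left _ _).trans (le_max_left _ _)
  have h2 : b ≤ M := (le_max_right _ _).trans (le_max_left _ _)
  have h3 : c ≤ M := (le_max_left _ _).trans (le_max_right _ _)
  have h4 : d ≤ M := (le_max_right _ _).trans (le_max_right _ _)
  have h5 : (a + b + c + d) ^ m ≤ (4 * M) ^ m :=
    pow_le_pow_left₀ (by positivity) (by linarith) m
  refine h5.trans ?_
  rw [mul_pow]
  refine mul_le_mul_of_nonneg_left ?_ (by positivity)
  have e1 : 0 ≤ a ^ m := pow_nonneg ha m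
  have e2 : 0 ≤ b ^ m := pow_nonneg hb m
  have e3 : 0 ≤ c ^ m := pow_nonneg hc m
  have e4 : 0 ≤ d ^ m := pow_nonneg hd m
  rcases max_choice (max a b) (max c d) with h | h
  · rw [hM, h]
    rcases max_choice a b with h | h <;> rw [h] <;> linarith
  · rw [hM, h]
    rcases max_choice c d with h | h <;> rw [h] <;> linarith

lemma pow_two_m (m : ℕ) {x : ℝ} (hx : 0 ≤ x) : x ^ m ≤ 1 + x ^ (2 * m) := by
  rcases le_total x 1 with h | h
  · have := pow_le_one₀ hx h (n := m)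
    have h2 : 0 ≤ x ^ (2 * m) := pow_nonneg hx _
    linarith
  · have := pow_le_pow_right₀ h (show m ≤ 2 * m by omega)
    linarith

lemma s_ne (t : ℝ) : (1 / 2 + t * I : ℂ) ≠ 1 := by
  intro h
  have := congrArg Complex.re h
  simp at this

lemma zt_cont : Continuous zt := by
  unfold zt
  rw [continuous_iff_continuousAt]
  intro t
  have h1 : ContinuousAt riemannZeta (1 / 2 + t * I) :=
    (differentiableAt_riemannZeta (s_ne t)).continuousAt
  exact ContinuousAt.comp (f := fun t : ℝ => (1 / 2 + t * I : ℂ)) h1 (by fun_prop)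

lemma cpow_cont {n : ℕ} (hn : 1 ≤ n) : Continuous (fun t : ℝ => (n : ℂ) ^ (-(1 / 2 + t * I))) := by
  refine Continuous.const_cpow (by fun_prop) (Or.inl ?_)
  exact_mod_cast (by omega : n ≠ 0)

lemma dp_cont (N : ℕ) (b : ℕ → ℂ) : Continuous (dp N b) := by
  unfold dp
  refine continuous_finsetSum _ fun n hn => ?_
  exact continuous_const.mul (cpow_cont (Finset.mem_Icc.1 hn).1)

lemma euler_ne {p : ℕ} (hp : p.Prime) (t : ℝ) : (1 : ℂ) - (p : ℂ) ^ (-(1 / 2 + t * I)) ≠ 0 := by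
  intro h
  have h1 : (p : ℂ) ^ (-(1 / 2 + t * I)) = 1 := by linear_combination -h
  have h2 := congrArg (fun z => ‖z‖) h1
  have h3 : ‖(p : ℂ) ^ (-(1 / 2 + t * I))‖ = (p : ℝ) ^ (-(1 / 2 : ℝ)) := by
    rw [Complex.norm_natCast_cpow_of_pos hp.pos]
    congr 1
    simp
  simp only [norm_one] at h2
  rw [h3] at h2
  have h4 : (p : ℝ) ^ (-(1 / 2 : ℝ)) < 1 := by
    apply Real.rpow_lt_one_of_one_lt_of_neg
    · exact_mod_cast hp.one_lt
    · norm_num
  linarith

lemma EP_cont (X : ℕ) : Continuous (EP X) := by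
  unfold EP
  refine Continuous.neg (continuous_finsetSum _ fun p hp => ?_)
  have hp' := (Finset.mem_filter.1 hp).2
  have h1 : Continuous (fun t : ℝ => (1 : ℂ) - (p : ℂ) ^ (-(1 / 2 + t * I))) :=
    continuous_const.sub (cpow_cont hp'.one_lt.le)
  exact Continuous.log h1.norm fun t => norm_ne_zero_iff.2 (euler_ne hp' t)

lemma SS_cont (δ T : ℝ) (hT : 1 ≤ T) : Continuous (SS δ T) := by
  unfold SS
  refine continuous_finsetSum _ fun s _ => ?_
  refine continuous_const.mul (Continuous.div continuous_const (by fun_prop) fun t => ?_)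
  have h : 0 ≤ Real.log T := Real.log_nonneg hT
  have h2 : 0 ≤ Real.log T * |s.im - t| := mul_nonneg h (abs_nonneg _)
  positivity

lemma SS_nonneg (δ T t : ℝ) : 0 ≤ SS δ T t := by
  unfold SS
  exact Finset.sum_nonneg fun s _ => by positivity

lemma SL_nonneg (T t : ℝ) : 0 ≤ SL T t := by
  unfold SL
  exact Finset.sum_nonneg fun s _ => mul_nonneg (Nat.cast_nonneg _) (le_max_left _ _)

lemma N2_nonneg (N : ℕ) (b : ℕ → ℂ) : 0 ≤ N2 N b := by
  unfold N2
  exact Finset.sum_nonneg fun n _ => by positivity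

/-- the zeros of `zt` in bounded intervals are finite in number -/
lemma zt_zero_finite {T : ℝ} (hT : 16 ≤ T) : {t : ℝ | T / 2 ≤ t ∧ t ≤ 4 * T ∧ zt t = 0}.Finite := by
  have h1 : {t : ℝ | T / 2 ≤ t ∧ t ≤ 4 * T ∧ zt t = 0} ⊆ (fun s : ℂ => s.im) '' (ZD T : Set ℂ) := by
    rintro t ⟨h2, h3, h4⟩
    refine ⟨1 / 2 + t * I, ?_, by simp⟩
    rw [Finset.mem_coe, ZD, H370.mem_Zf H370.good_zeta (by linarith)]
    refine ⟨by norm_num, by norm_num, ?_, ?_, h4⟩
    · simp; linarith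
    · simp; linarith
  exact ((ZD T).finite_toSet.image _).subset h1

lemma ae_zt {T : ℝ} (hT : 16 ≤ T) :
    ∀ᵐ t : ℝ, T / 2 ≤ t → t ≤ 4 * T → zt t ≠ 0 := by
  have h1 := (zt_zero_finite hT).measure_zero (volume : Measure ℝ)
  have h2 : ∀ᵐ t : ℝ, t ∉ {t : ℝ | T / 2 ≤ t ∧ t ≤ 4 * T ∧ zt t = 0} := by
    rw [ae_iff]
    simpa using h1
  filter_upwards [h2] with t ht h3 h4 h5
  exact ht ⟨h3, h4, h5⟩

/-- the mean value theorem on `[T/2, 4T]` -/
lemma mvl4 (hMV : S_MVL) {T : ℝ} (hT : 32 ≤ T) (N : ℕ) (hN : (N : ℝ) ≤ (T / 2) ^ (1 / 4 : ℝ))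
    (b : ℕ → ℂ) : ∫ t in (T / 2)..(4 * T), ‖dp N b t‖ ^ 2 ≤ 7 * T * N2 N b := by
  have hc : Continuous (fun t => ‖dp N b t‖ ^ 2) := (dp_cont N b).norm.pow 2
  have hi : ∀ a b', IntervalIntegrable (fun t => ‖dp N b t‖ ^ 2) volume a b' := fun a b' =>
    hc.intervalIntegrable a b'
  have hm : ∀ T', T / 2 ≤ T' → (N : ℝ) ≤ T' ^ (1 / 4 : ℝ) := fun T' h =>
    hN.trans (Real.rpow_le_rpow (by linarith) h (by norm_num))
  have h1 := (hMV (T / 2) (by linarith) N (hm _ le_rfl) b).2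
  have h2 := (hMV T (by linarith) N (hm _ (by linarith)) b).2
  have h3 := (hMV (2 * T) (by linarith) N (hm _ (by linarith)) b).2
  have e1 : (2 : ℝ) * (T / 2) = T := by ring
  have e2 : (2 : ℝ) * (2 * T) = 4 * T := by ring
  rw [e1] at h1
  rw [e2] at h3
  have h4 := intervalIntegral.integral_add_adjacent_intervals (hi (T / 2) T) (hi T (2 * T))
  have h5 := intervalIntegral.integral_add_adjacent_intervals (hi (T / 2) (2 * T))
    (hi (2 * T) (4 * T))
  rw [← h5, ← h4]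
  have h6 := N2_nonneg N b
  nlinarith

/-- the coefficients of the difference between the smoothed sum and the Euler product -/
noncomputable def alp (ψ₁ : ℝ → ℝ) (D : ℝ) (X n : ℕ) : ℂ :=
  open Classical in if n.Prime ∧ n ≤ X then ((1 - ψ₁ (Real.log n / D) : ℝ) : ℂ) else 0

lemma alp_ne {ψ₁ : ℝ → ℝ} {D : ℝ} {X n : ℕ} (h : alp ψ₁ D X n ≠ 0) : n.Prime ∧ n ≤ X := by
  by_contra h0
  apply h
  unfold alp
  rw [if_neg h0]

lemma alp_le {ψ₁ : ℝ → ℝ} {CL : ℝ} (h0 : ψ₁ 0 = 1) (hCL0 : 0 ≤ CL)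
    (hCL : ∀ u v, |ψ₁ u - ψ₁ v| ≤ CL * |u - v|) {D : ℝ} {X : ℕ} (hX : 2 ≤ X)
    (hD : Real.log X ≤ D) (n : ℕ) : ‖alp ψ₁ D X n‖ ≤ CL * (Real.log n / Real.log X) := by
  have hlX : 0 < Real.log X := Real.log_pos (by exact_mod_cast (by omega : 1 < X))
  have hln : 0 ≤ Real.log n := Real.log_natCast_nonneg n
  unfold alp
  split_ifs with h
  · rw [Complex.norm_real, Real.norm_eq_abs]
    have h1 := hCL 0 (Real.log n / D)
    rw [h0] at h1
    refine h1.trans (mul_le_mul_of_nonneg_left ?_ hCL0)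
    rw [zero_sub, abs_neg, abs_of_nonneg (div_nonneg hln (hlX.le.trans hD))]
    exact div_le_div_of_nonneg_left hln hlX hD
  · rw [norm_zero]
    positivity

end Pool.Agent.Q247.UM
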